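import Pool.Agent.Helper60.BN9.Tw

/-!
# Project BN, block B9b, pieces BN-B9b-17 to BN-B9b-20: the automorphism group of `A m`
-/

namespace Pool.Agent.Helper38.BN.E9

variable {m k : ℕ}

@[simp] lemma eps_a {j : ℕ} (hj : j < m + 2) : eps m (aA j) = (aA j)⁻¹ := epsHom_a hj
@[simp] lemma eps_b : eps m bA = bA⁻¹ := epsHom_b
@[simp] lemma eps_d : eps m dA = dA⁻¹ := epsHom_d
lemma tau_a {j : ℕ} (hj : j < m + 1) : tau m (aA j) = aA j := tauHom_a hj
@[simp] lemma tau_a' : tau m (aA (m + 1)) = bA := tauHom_a'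
@[simp] lemma tau_b : tau m bA = aA (m + 1) := tauHom_b
@[simp] lemma tau_d : tau m dA = dA := tauHom_d

lemma eps_eps : eps m * eps m = 1 := by
  ext x
  exact epsHom_epsHom x

/-- piece `B9b-17`. Proof. Both `(piA m).comp (eps m).toMonoidHom` and `piA m` agree on the generators
(`homA_ext`, `piA_a`, `piA_b`, `piA_d`; `Equiv.swap_inv`). -/
theorem piA_eps (x : A m) : piA m (eps m x) = piA m x := by
  have h : (piA m).comp (epsHom m) = piA m := by
    apply homA_ext
    · intro j hj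
      rw [MonoidHom.comp_apply, epsHom_a hj, map_inv, piA_a hj, Equiv.swap_inv]
    · rw [MonoidHom.comp_apply, epsHom_b, map_inv, piA_b, Equiv.swap_inv]
    · rw [MonoidHom.comp_apply, epsHom_d, map_inv, piA_d, inv_one]
  exact DFunLike.congr_fun h x

/-- piece `B9b-17` -/
theorem piA_tau (x : A m) : piA m (tau m x) = piA m x := by
  have h : (piA m).comp (tauHom m) = piA m := by
    apply homA_ext
    · intro j hj
      rcases Nat.lt_or_ge j (m + 1) with h1 | h1
      · rw [MonoidHom.comp_apply, tauHom_a h1]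
      · have e : j = m + 1 := by omega
        subst e
        rw [MonoidHom.comp_apply, tauHom_a', piA_b, piA_a hj]
    · rw [MonoidHom.comp_apply, tauHom_b, piA_b, piA_a (by omega)]
    · rw [MonoidHom.comp_apply, tauHom_d]
  exact DFunLike.congr_fun h x

/-- piece `B9b-17`. Proof. `nA_mem_P`; `P m` is the kernel of `piA m`. -/
theorem piA_nA (n : N (m + 2)) : piA m (nA m n) = 1 := nA_mem_P n

/-- piece `B9b-17`: `ε` and `τ` commute. Proof. `homA_ext`. -/
theorem eps_tau : eps m * tau m = tau m * eps m := by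
  have h : (epsHom m).comp (tauHom m) = (tauHom m).comp (epsHom m) := by
    apply homA_ext
    · intro j hj
      rcases Nat.lt_or_ge j (m + 1) with h1 | h1
      · rw [MonoidHom.comp_apply, MonoidHom.comp_apply, tauHom_a h1, epsHom_a hj, map_inv,
          tauHom_a h1]
      · have e : j = m + 1 := by omega
        subst e
        rw [MonoidHom.comp_apply, MonoidHom.comp_apply, tauHom_a', epsHom_b, epsHom_a hj, map_inv,
          tauHom_a']
    · rw [MonoidHom.comp_apply, MonoidHom.comp_apply, tauHom_b, epsHom_a (by omega), epsHom_b,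
        map_inv, tauHom_b]
    · rw [MonoidHom.comp_apply, MonoidHom.comp_apply, tauHom_d, epsHom_d, map_inv, tauHom_d]
  ext x
  exact DFunLike.congr_fun h x

/-- piece `B9b-18`: central elements of `HB (m + 2)` are powers of `ζ`.
Proof. `y * zH k x * y⁻¹ = zH k x` and `= zH k (Chi k y x)` (`zH_conj`). `zH k` is injective (if
`zH k x = zH k x'` then `conj x = conj x'` by `chi_zH`, so `x'⁻¹ x` is central, `F_center` with `k = m + 1`).
So `Chi k y = 1`; `faithful`. -/
theorem central_H {y : HB (m + 2)} (hy : ∀ x, y * x = x * y) :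
    ∃ e : ℤ, y = zeH (m + 2) ^ e := by
  have hinj : ∀ x x' : F (m + 2), zH (m + 2) x = zH (m + 2) x' → x = x' := by
    intro x x' h
    have h1 : MulAut.conj x = MulAut.conj x' := by
      rw [← chi_zH, ← chi_zH, h]
    have h2 : x'⁻¹ * x = 1 := by
      apply F_center (k := m + 1)
      intro t
      have h3 : x * t * x⁻¹ = x' * t * x'⁻¹ := by
        have := DFunLike.congr_fun h1 t
        rwa [MulAut.conj_apply, MulAut.conj_apply] at this
      calc x'⁻¹ * x * t = x'⁻¹ * (x * t * x⁻¹) * x := by group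
        _ = x'⁻¹ * (x' * t * x'⁻¹) * x := by rw [h3]
        _ = t * (x'⁻¹ * x) := by group
    exact (inv_mul_eq_one.mp h2).symm
  have h1 : Chi (m + 2) y = 1 := by
    ext1 x
    rw [MulAut.one_apply]
    apply hinj
    rw [← zH_conj, hy, mul_inv_cancel_right]
  obtain ⟨e, he⟩ := Subgroup.mem_zpowers_iff.mp (faithful h1)
  exact ⟨e, he.symm⟩

/-- piece `B9b-18`: the exponents of `ζ`. Proof. `zeA m = (dA * kap aA (m+2)) ^ (m+3)` (unfold `zeA`, `zeta`,
`rho`); `ab (kap aA j) = ofAdd (j, 0)` for `j ≤ m + 2` by induction; so `ab (zeA m) = ofAdd ((m+3)(m+2), m+3)`. Only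
the second component is needed. -/
theorem ab_zeA (m : ℕ) : (Multiplicative.toAdd (ab m (zeA m))).2 = (m : ℤ) + 3 := by
  have h1 : ∀ j, j ≤ m + 2 → (Multiplicative.toAdd (ab m (kap aA j))).2 = 0 := by
    intro j
    induction j with
    | zero =>
      intro _
      change (Multiplicative.toAdd (ab m 1)).2 = 0
      rw [map_one]
      rfl
    | succ j ih =>
      intro hj
      change (Multiplicative.toAdd (ab m (kap aA j * aA j))).2 = 0
      rw [map_mul, toAdd_mul, Prod.snd_add, ih (by omega), ab_a (by omega)]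
      rfl
  unfold zeA zeta rho
  rw [map_pow, toAdd_pow, Prod.smul_snd, map_mul, toAdd_mul, Prod.snd_add, h1 _ le_rfl, ab_d,
    toAdd_ofAdd, add_zero, nsmul_eq_mul, mul_one]
  push_cast
  ring

/-- piece `B9b-18`: `ε ζ = ζ⁻¹`.
Proof. Let `E : HB (m+2) →* HB (m+2)` be `liftH (inv_relB (relH (m+2)))`: `a_j ↦ a_j⁻¹`, `d ↦ d⁻¹`. `E ∘ E = id`
(`homH_ext`), so `E` is surjective; `eps m (inc m x) = inc m (E x)` (`homH_ext`). `y = E (zeH (m+2))` is central
(`zeH_comm`), so `y = ζ^e` (`central_H`), and `eps m (zeA m) = zeA m ^ e` (`inc_zeta`). Apply `ab m`: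
`ab (eps x) = (ab x)⁻¹` (`homA_ext`), so `-(m+3) = e (m+3)` by `ab_zeA`, `e = -1`. -/
theorem eps_zeta (m : ℕ) : eps m (zeA m) = (zeA m)⁻¹ := by
  have hEa : ∀ j, j < m + 2 → liftH (inv_relB (relH (m + 2))) (aH j) = (aH j)⁻¹ :=
    fun j hj => liftH_a _ hj
  have hEd : liftH (inv_relB (relH (m + 2))) dH = dH⁻¹ := liftH_d _
  generalize liftH (inv_relB (relH (m + 2))) = E at hEa hEd
  have hEE : ∀ x, E (E x) = x := by
    have h : E.comp E = MonoidHom.id (HB (m + 2)) := by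
      apply homH_ext
      · intro j hj
        rw [MonoidHom.comp_apply, hEa j hj, map_inv, hEa j hj, inv_inv, MonoidHom.id_apply]
      · rw [MonoidHom.comp_apply, hEd, map_inv, hEd, inv_inv, MonoidHom.id_apply]
    exact fun x => DFunLike.congr_fun h x
  have hinc : ∀ x, eps m (inc m x) = inc m (E x) := by
    have h : (eps m).toMonoidHom.comp (inc m) = (inc m).comp E := by
      apply homH_ext
      · intro j hj
        change eps m (inc m (aH j)) = inc m (E (aH j))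
        rw [inc_a hj, eps_a hj, hEa j hj, map_inv, inc_a hj]
      · change eps m (inc m dH) = inc m (E dH)
        rw [inc_d, eps_d, hEd, map_inv, inc_d]
    exact fun x => DFunLike.congr_fun h x
  have habe : ∀ x, ab m (eps m x) = (ab m x)⁻¹ := by
    have h : (ab m).comp (eps m).toMonoidHom = (ab m)⁻¹ := by
      apply homA_ext
      · intro j hj
        change ab m (eps m (aA j)) = (ab m (aA j))⁻¹
        rw [eps_a hj, map_inv]
      · change ab m (eps m bA) = (ab m bA)⁻¹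
        rw [eps_b, map_inv]
      · change ab m (eps m dA) = (ab m dA)⁻¹
        rw [eps_d, map_inv]
    exact fun x => DFunLike.congr_fun h x
  obtain ⟨e, he⟩ := central_H (m := m) (y := E (zeH (m + 2))) fun x => by
    rw [← hEE x, ← map_mul, ← zeH_comm, map_mul]
  have h1 : eps m (zeA m) = zeA m ^ e := by
    rw [← inc_zeta, hinc, he, map_zpow]
  have h2 : -((m : ℤ) + 3) = e * ((m : ℤ) + 3) := by
    have h3 := habe (zeA m)
    rw [h1, map_zpow] at h3
    have h4 := congrArg (fun z => (Multiplicative.toAdd z).2) h3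
    simp only [toAdd_zpow, toAdd_inv, Prod.snd_neg, Prod.smul_snd, smul_eq_mul] at h4
    rw [ab_zeA] at h4
    exact h4.symm
  have h3 : e = -1 := by
    have h4 : (0 : ℤ) < (m : ℤ) + 3 := by positivity
    have h5 : (e + 1) * ((m : ℤ) + 3) = 0 := by linarith
    rcases mul_eq_zero.mp h5 with h6 | h6
    · linarith
    · exact absurd h6 (ne_of_gt h4)
  rw [h1, h3, zpow_neg_one]

/-- the subgroup generated by the inner automorphisms, `ε` and `τ` -/
def CS (m : ℕ) : Set (MulAut (A m)) :=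
  {φ | ∃ s, φ = MulAut.conj s ∨ φ = MulAut.conj s * eps m ∨ φ = MulAut.conj s * tau m ∨
      φ = MulAut.conj s * (eps m * tau m)}

private def V (m : ℕ) : Set (MulAut (A m)) := {e | e = 1 ∨ e = eps m ∨ e = tau m ∨ e = eps m * tau m}

private lemma mul_conj' (e : MulAut (A m)) (t : A m) :
    e * MulAut.conj t = MulAut.conj (e t) * e := by
  ext x
  simp [MulAut.mul_apply]

private lemma mem_CS_iff (φ : MulAut (A m)) : φ ∈ CS m ↔ ∃ s, ∃ e ∈ V m, φ = MulAut.conj s * e := by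
  constructor
  · rintro ⟨s, h | h | h | h⟩
    · exact ⟨s, 1, Or.inl rfl, by rw [h, mul_one]⟩
    · exact ⟨s, _, Or.inr (Or.inl rfl), h⟩
    · exact ⟨s, _, Or.inr (Or.inr (Or.inl rfl)), h⟩
    · exact ⟨s, _, Or.inr (Or.inr (Or.inr rfl)), h⟩
  · rintro ⟨s, e, h | h | h | h, rfl⟩
    · exact ⟨s, Or.inl (by rw [h, mul_one])⟩
    · exact ⟨s, Or.inr (Or.inl (by rw [h]))⟩
    · exact ⟨s, Or.inr (Or.inr (Or.inl (by rw [h])))⟩
    · exact ⟨s, Or.inr (Or.inr (Or.inr (by rw [h])))⟩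

private lemma V_mul {e f : MulAut (A m)} (he : e ∈ V m) (hf : f ∈ V m) : e * f ∈ V m := by
  have h1 := eps_eps (m := m)
  have h2 := tau_tau (m := m)
  have h3 := eps_tau (m := m)
  rcases he with rfl | rfl | rfl | rfl
  · rwa [one_mul]
  · rcases hf with rfl | rfl | rfl | rfl
    · exact Or.inr (Or.inl (mul_one _))
    · exact Or.inl h1
    · exact Or.inr (Or.inr (Or.inr rfl))
    · exact Or.inr (Or.inr (Or.inl (by rw [← mul_assoc, h1, one_mul])))
  · rcases hf with rfl | rfl | rfl | rfl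
    · exact Or.inr (Or.inr (Or.inl (mul_one _)))
    · exact Or.inr (Or.inr (Or.inr h3.symm))
    · exact Or.inl h2
    · exact Or.inr (Or.inl (by rw [h3, ← mul_assoc, h2, one_mul]))
  · rcases hf with rfl | rfl | rfl | rfl
    · exact Or.inr (Or.inr (Or.inr (mul_one _)))
    · exact Or.inr (Or.inr (Or.inl (by rw [h3, mul_assoc, h1, mul_one])))
    · exact Or.inr (Or.inl (by rw [mul_assoc, h2, mul_one]))
    · refine Or.inl ?_
      calc eps m * tau m * (eps m * tau m) = eps m * (tau m * eps m) * tau m := by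
            simp only [mul_assoc]
        _ = eps m * (eps m * tau m) * tau m := by rw [h3]
        _ = (eps m * eps m) * (tau m * tau m) := by simp only [mul_assoc]
        _ = 1 := by rw [h1, h2, one_mul]

private lemma V_sq {e : MulAut (A m)} (he : e ∈ V m) : e * e = 1 := by
  have h1 := eps_eps (m := m)
  have h2 := tau_tau (m := m)
  have h3 := eps_tau (m := m)
  rcases he with rfl | rfl | rfl | rfl
  · exact one_mul _
  · exact h1
  · exact h2
  · calc eps m * tau m * (eps m * tau m) = eps m * (tau m * eps m) * tau m := by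
          simp only [mul_assoc]
      _ = eps m * (eps m * tau m) * tau m := by rw [h3]
      _ = (eps m * eps m) * (tau m * tau m) := by simp only [mul_assoc]
      _ = 1 := by rw [h1, h2, one_mul]

/-- piece `B9b-19`: Proof. `e * conj s = conj (e s) * e` for every automorphism `e` (ext), `eps_eps`,
`tau_tau`, `eps_tau`. The elements are `conj s * e` with `e` in the group `{1, ε, τ, ε τ}`. It may be easier to
prove first: `φ ∈ CS m ↔ ∃ s, ∃ e ∈ V, φ = conj s * e` with `V = {1, ε, τ, ε τ}`, closed under products. -/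
theorem CS_mul {φ ψ : MulAut (A m)} (h : φ ∈ CS m) (h' : ψ ∈ CS m) : φ * ψ ∈ CS m := by
  obtain ⟨s, e, he, rfl⟩ := (mem_CS_iff φ).mp h
  obtain ⟨t, f, hf, rfl⟩ := (mem_CS_iff ψ).mp h'
  refine (mem_CS_iff _).mpr ⟨s * e t, e * f, V_mul he hf, ?_⟩
  rw [mul_assoc, ← mul_assoc e, mul_conj', map_mul]
  simp only [mul_assoc]

/-- piece `B9b-19` -/
theorem CS_inv {φ : MulAut (A m)} (h : φ ∈ CS m) : φ⁻¹ ∈ CS m := by
  obtain ⟨s, e, he, rfl⟩ := (mem_CS_iff φ).mp h
  have h2 : e * e = 1 := V_sq he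
  have h3 : e⁻¹ = e := inv_eq_of_mul_eq_one_right h2
  refine (mem_CS_iff _).mpr ⟨e s⁻¹, e, he, ?_⟩
  rw [mul_inv_rev, h3, ← map_inv, mul_conj']

lemma CS_conj (s : A m) : MulAut.conj s ∈ CS m := ⟨s, Or.inl rfl⟩
lemma CS_eps (m : ℕ) : eps m ∈ CS m := ⟨1, Or.inr (Or.inl (by simp))⟩
lemma CS_tau (m : ℕ) : tau m ∈ CS m := ⟨1, Or.inr (Or.inr (Or.inl (by simp)))⟩

lemma CS_of_mul {φ ψ : MulAut (A m)} (h : ψ ∈ CS m) (h' : ψ * φ ∈ CS m) : φ ∈ CS m := by
  have := CS_mul (CS_inv h) h'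
  rwa [inv_mul_cancel_left] at this

/-- piece `B9b-20`: normalization.
Proof. `s` from `x2 hm φ`; `φ₁ = conj s⁻¹ * φ` satisfies `piA (φ₁ x) = piA x`. Apply `hz φ₁`: `n`. Let `t = nA m n`.
In the four cases take `c = conj t⁻¹ * conj s⁻¹`, `c = eps * conj t⁻¹ * conj s⁻¹`,
`c = conj t⁻¹ * tau * conj s⁻¹`, `c = eps * conj t⁻¹ * tau * conj s⁻¹`. In the first case
`φ₁ ζ = nA m (n * rN m * n⁻¹) = t ζ t⁻¹` (`nA_r`), so `c φ ζ = ζ`; in the second case
`φ₁ ζ = t ζ⁻¹ t⁻¹`, `eps ζ⁻¹ = ζ` (`eps_zeta`); in the last two cases `tau (φ₁ ζ) = t ζ^(±1) t⁻¹` by `tau_tau`.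
The permutations: `piA_eps`, `piA_tau`, `piA_nA`. -/
theorem normalize (hm : 1 ≤ m) (hz : ∀ φ : MulAut (A m), ∃ (n : N (m + 2)),
      φ (zeA m) = nA m (n * rN m * n⁻¹) ∨ φ (zeA m) = (nA m (n * rN m * n⁻¹))⁻¹ ∨
      φ (zeA m) = tau m (nA m (n * rN m * n⁻¹)) ∨
      φ (zeA m) = (tau m (nA m (n * rN m * n⁻¹)))⁻¹) (φ : MulAut (A m)) :
    ∃ c ∈ CS m, (∀ x, piA m (c (φ x)) = piA m x) ∧ c (φ (zeA m)) = zeA m := by
  obtain ⟨s, hs⟩ := x2 hm φ
  have hp1 : ∀ x, piA m ((MulAut.conj s⁻¹ * φ) x) = piA m x := by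
    intro x
    have h1 := hs x
    rw [MulAut.mul_apply, MulAut.conj_apply, map_mul, map_mul, h1, map_mul, map_mul]
    simp only [map_inv]
    group
  have htau : ∀ x, tau m (tau m x) = x := fun x => by
    have h := DFunLike.congr_fun (tau_tau (m := m)) x
    exact h
  have hconj : ∀ (n : N (m + 2)) (y : A m), piA m (MulAut.conj (nA m n)⁻¹ y) = piA m y := by
    intro n y
    rw [MulAut.conj_apply, map_mul, map_mul]
    simp only [map_inv, piA_nA, inv_one, one_mul, mul_one, inv_inv]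
  have hz1 : ∀ n : N (m + 2), nA m (n * rN m * n⁻¹) = nA m n * zeA m * (nA m n)⁻¹ := by
    intro n
    rw [map_mul, map_mul, nA_r, map_inv]
  have hc1 : ∀ n : N (m + 2), MulAut.conj (nA m n)⁻¹ (nA m (n * rN m * n⁻¹)) = zeA m := by
    intro n
    rw [hz1, MulAut.conj_apply]
    group
  have hc2 : ∀ n : N (m + 2), MulAut.conj (nA m n)⁻¹ (nA m (n * rN m * n⁻¹))⁻¹ = (zeA m)⁻¹ := by
    intro n
    rw [map_inv, hc1]
  have he : eps m (zeA m)⁻¹ = zeA m := by
    rw [map_inv, eps_zeta, inv_inv]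
  obtain ⟨n, hn⟩ := hz (MulAut.conj s⁻¹ * φ)
  rw [MulAut.mul_apply] at hn
  rcases hn with hn | hn | hn | hn
  · refine ⟨MulAut.conj (nA m n)⁻¹ * MulAut.conj s⁻¹, CS_mul (CS_conj _) (CS_conj _), ?_, ?_⟩
    · intro x
      rw [MulAut.mul_apply, hconj]
      exact hp1 x
    · rw [MulAut.mul_apply, hn, hc1]
  · refine ⟨eps m * (MulAut.conj (nA m n)⁻¹ * MulAut.conj s⁻¹),
      CS_mul (CS_eps m) (CS_mul (CS_conj _) (CS_conj _)), ?_, ?_⟩
    · intro x
      rw [MulAut.mul_apply, piA_eps, MulAut.mul_apply, hconj]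
      exact hp1 x
    · rw [MulAut.mul_apply, MulAut.mul_apply, hn, hc2, he]
  · refine ⟨MulAut.conj (nA m n)⁻¹ * (tau m * MulAut.conj s⁻¹),
      CS_mul (CS_conj _) (CS_mul (CS_tau m) (CS_conj _)), ?_, ?_⟩
    · intro x
      rw [MulAut.mul_apply, hconj, MulAut.mul_apply, piA_tau]
      exact hp1 x
    · rw [MulAut.mul_apply, MulAut.mul_apply, hn, htau, hc1]
  · refine ⟨eps m * (MulAut.conj (nA m n)⁻¹ * (tau m * MulAut.conj s⁻¹)),
      CS_mul (CS_eps m) (CS_mul (CS_conj _) (CS_mul (CS_tau m) (CS_conj _))), ?_, ?_⟩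
    · intro x
      rw [MulAut.mul_apply, piA_eps, MulAut.mul_apply, hconj, MulAut.mul_apply, piA_tau]
      exact hp1 x
    · rw [MulAut.mul_apply, MulAut.mul_apply, MulAut.mul_apply, hn, map_inv (tau m), htau, hc2, he]

/-- piece `B9b-21`: the restriction to the group of type `B`.
Proof. For `x : HB (m+2)`, `inc m x` commutes with `zeA m = inc m (zeH (m+2))` (`zeH_comm`, `inc_zeta`), so
`φ (inc m x)` commutes with `φ (zeA m) = zeA m`; by `hc` it is `inc m y`, and `y = fold m (φ (inc m x))`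
(`fold_inc`). The same for `φ.symm`. Let `φ' = (fold m).comp (φ.toMonoidHom.comp (inc m))` and `ψ'` the same with
`φ.symm`: they are inverse to each other (`inc_inj`), so they give `φH : MulAut (HB (m+2))`
(`MonoidHom.toMulEquiv`). `piH (φH x) = piA (inc (φH x)) = piA (φ (inc x)) = piA (inc x) = piH x` (`piA_inc`);
`φH ζ = ζ` by `inc_inj`, `inc_zeta`. -/
theorem exists_phiH (hc : ∀ x : A m, x * zeA m = zeA m * x → ∃ y, x = inc m y) (φ : MulAut (A m))
    (hπ : ∀ x, piA m (φ x) = piA m x) (hζ : φ (zeA m) = zeA m) :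
    ∃ φH : MulAut (HB (m + 2)), (∀ x, φ (inc m x) = inc m (φH x)) ∧
      (∀ x, piH (m + 2) (φH x) = piH (m + 2) x) ∧ φH (zeH (m + 2)) = zeH (m + 2) := by
  -- for every automorphism fixing `ζ`
  have key : ∀ ψ : MulAut (A m), ψ (zeA m) = zeA m → ∀ x : HB (m + 2),
      ψ (inc m x) = inc m (fold m (ψ (inc m x))) := by
    intro ψ hψ x
    have h1 : ψ (inc m x) * zeA m = zeA m * ψ (inc m x) := by
      have h2 : inc m x * zeA m = zeA m * inc m x := by
        rw [← inc_zeta, ← map_mul, ← map_mul, zeH_comm]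
      calc ψ (inc m x) * zeA m = ψ (inc m x) * ψ (zeA m) := by rw [hψ]
        _ = ψ (inc m x * zeA m) := (map_mul ψ _ _).symm
        _ = ψ (zeA m * inc m x) := by rw [h2]
        _ = ψ (zeA m) * ψ (inc m x) := map_mul ψ _ _
        _ = zeA m * ψ (inc m x) := by rw [hψ]
    obtain ⟨y, hy⟩ := hc _ h1
    rw [hy, fold_inc]
  have hζ' : φ⁻¹ (zeA m) = zeA m := by
    have h1 : φ⁻¹ (φ (zeA m)) = zeA m := MulAut.inv_apply_self _ φ (zeA m)
    rwa [hζ] at h1
  let f : HB (m + 2) →* HB (m + 2) := (fold m).comp (φ.toMonoidHom.comp (inc m))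
  let g : HB (m + 2) →* HB (m + 2) := (fold m).comp ((φ⁻¹).toMonoidHom.comp (inc m))
  have hf : ∀ x, inc m (f x) = φ (inc m x) := fun x => (key φ hζ x).symm
  have hg : ∀ x, inc m (g x) = φ⁻¹ (inc m x) := fun x => (key φ⁻¹ hζ' x).symm
  have hgf : g.comp f = MonoidHom.id _ := by
    refine MonoidHom.ext fun x => ?_
    apply inc_inj
    rw [MonoidHom.comp_apply, hg, hf, MonoidHom.id_apply]
    exact MulAut.inv_apply_self _ φ (inc m x)
  have hfg : f.comp g = MonoidHom.id _ := by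
    refine MonoidHom.ext fun x => ?_
    apply inc_inj
    rw [MonoidHom.comp_apply, hf, hg, MonoidHom.id_apply]
    exact MulAut.apply_inv_self _ φ (inc m x)
  have hF : ∀ x, (MonoidHom.toMulEquiv f g hgf hfg) x = f x := fun x => rfl
  refine ⟨MonoidHom.toMulEquiv f g hgf hfg, fun x => ?_, fun x => ?_, ?_⟩
  · rw [hF, hf]
  · rw [hF, ← piA_inc, hf, hπ, piA_inc]
  · apply inc_inj
    rw [hF, hf, inc_zeta, hζ]

/-- the assembly: `aut_A` -/
theorem aut_A' (hm : 1 ≤ m)
    (hz : ∀ φ : MulAut (A m), ∃ (n : N (m + 2)),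
      φ (zeA m) = nA m (n * rN m * n⁻¹) ∨ φ (zeA m) = (nA m (n * rN m * n⁻¹))⁻¹ ∨
      φ (zeA m) = tau m (nA m (n * rN m * n⁻¹)) ∨
      φ (zeA m) = (tau m (nA m (n * rN m * n⁻¹)))⁻¹)
    (hc : ∀ x : A m, x * zeA m = zeA m * x → ∃ y, x = inc m y)
    (hH : ∀ φ : MulAut (HB (m + 2)), (∀ x, piH (m + 2) (φ x) = piH (m + 2) x) →
      φ (zeH (m + 2)) = zeH (m + 2) → ∃ (s : HB (m + 2)) (l : ℤ),
        (∀ x, φ x = s * Tr (m + 2) l x * s⁻¹) ∨
        (∀ x, φ x = s * Tr (m + 2) l (Sp (m + 2) x) * s⁻¹))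
    (h1 : ∀ (φ : MulAut (A m)) (l : ℤ), (∀ x, φ (inc m x) = inc m (Tr (m + 2) l x)) →
      ∃ s, φ = MulAut.conj s)
    (h2 : ∀ (φ : MulAut (A m)) (l : ℤ),
      (∀ x, φ (inc m x) = inc m (Tr (m + 2) l (Sp (m + 2) x))) → False)
    (φ : MulAut (A m)) :
    ∃ s, φ = MulAut.conj s ∨ φ = MulAut.conj s * eps m ∨ φ = MulAut.conj s * tau m ∨
      φ = MulAut.conj s * (eps m * tau m) := by
  obtain ⟨c, hcs, hπ, hζ⟩ := normalize hm hz φ
  obtain ⟨φH, e1, e2, e3⟩ := exists_phiH hc (c * φ) hπ hζ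
  obtain ⟨s, l, h⟩ := hH φH e2 e3
  have key : ∀ f : HB (m + 2) → HB (m + 2), (∀ x, φH x = s * f x * s⁻¹) →
      ∀ x, (MulAut.conj (inc m s)⁻¹ * (c * φ)) (inc m x) = inc m (f x) := by
    intro f hf x
    have : (MulAut.conj (inc m s)⁻¹ * (c * φ)) (inc m x) =
        (inc m s)⁻¹ * (c * φ) (inc m x) * (inc m s)⁻¹⁻¹ := rfl
    rw [this, e1, hf, map_mul, map_mul, map_inv]
    group
  change φ ∈ CS m
  apply CS_of_mul hcs
  apply CS_of_mul (CS_conj (inc m s)⁻¹)
  rcases h with h | h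
  · obtain ⟨t, ht⟩ := h1 _ l (key _ h)
    rw [ht]
    exact CS_conj t
  · exact (h2 _ l (key _ h)).elim

end Pool.Agent.Helper38.BN.E9
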