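import Pool.Agent.Helper60.BN9.Fix

/-!
# Project BN, block B9b, pieces BN-B9b-11 to BN-B9b-16: `φ` is not `Tr l ∘ Sp` on the group of type `B`
-/

namespace Pool.Agent.Helper38.BN.E9

variable {m k : ℕ}

/-- the element `v = y x_0 y⁻¹ x_0` -/
def vG (k : ℕ) : G k := yG * xG 0 * yG⁻¹ * xG 0

/-- the element `c = y x_0 y⁻¹` -/
def cG (k : ℕ) : G k := yG * xG 0 * yG⁻¹

lemma cG_sq : cG k * cG k = 1 := by
  unfold cG
  calc yG * xG 0 * yG⁻¹ * (yG * xG 0 * yG⁻¹) = yG * (xG 0 * xG 0) * yG⁻¹ := by group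
    _ = 1 := by rw [xG_sq]; group

lemma cG_inv : (cG k)⁻¹ = cG k := inv_eq_of_mul_eq_one_left cG_sq

lemma par_cG : par k (cG k) = -1 := by
  unfold cG
  rw [map_mul, map_mul, map_inv, par_x (by omega), mul_right_comm, mul_inv_cancel, one_mul]

lemma vG_mem (k : ℕ) : vG k ∈ N k := by
  rw [mem_N]
  change par k (cG k * xG 0) = 1
  rw [map_mul, par_cG, par_x (by omega)]
  simp

/-- `v` as an element of `N` -/
def vN (k : ℕ) : N k := ⟨vG k, vG_mem k⟩

/-- the subgroup `S = ⟨v⟩ [N, N]` -/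
def SS (k : ℕ) : Subgroup (G k) := Subgroup.zpowers (vG k) ⊔ ⁅N k, N k⁆

/-- piece `B9b-11`: `S` is normal.
Proof. `N k` is normal (kernel of `par`), so `⁅N k, N k⁆` is normal (`Subgroup.commutator_normal`).
`Subgroup.Normal.mk`; the set of `s` with `g s g⁻¹ ∈ SS k` is a subgroup (the comap of `SS k` under
`MulAut.conj g`), so it is enough (`sup_le`) that it contains `vG k` and `⁅N k, N k⁆`; the latter is clear. If
`par k g = 1`, `g v g⁻¹ = ⁅g, v⁆ v` (`Subgroup.commutator_mem_commutator`, `vG_mem`). If `par k g = -1`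
(`Int.units_eq_one_or`), `g' = g x_0` has `par = 1` and `g v g⁻¹ = g' (x_0 v x_0) g'⁻¹ = (g' v g'⁻¹)⁻¹`, as
`x_0 v x_0 = x_0 y x_0 y⁻¹ = v⁻¹`. -/
theorem SS_normal (k : ℕ) : (SS k).Normal := by
  have hN : (N k).Normal := MonoidHom.normal_ker _
  have hC : (⁅N k, N k⁆ : Subgroup (G k)).Normal := Subgroup.commutator_normal _ _
  have hle : ⁅N k, N k⁆ ≤ SS k := le_sup_right
  have hv : vG k ∈ SS k :=
    (le_sup_left : Subgroup.zpowers (vG k) ≤ SS k) (Subgroup.mem_zpowers _)
  have h1 : ∀ g : G k, SS k ≤ (SS k).comap (MulAut.conj g).toMonoidHom := by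
    intro g
    refine sup_le ?_ ?_
    · rw [Subgroup.zpowers_le, Subgroup.mem_comap]
      change g * vG k * g⁻¹ ∈ SS k
      have key : ∀ g' : G k, par k g' = 1 → g' * vG k * g'⁻¹ ∈ SS k := by
        intro g' hg'
        have e : g' * vG k * g'⁻¹ = (g' * vG k * g'⁻¹ * (vG k)⁻¹) * vG k := by group
        rw [e]
        exact mul_mem (hle (Subgroup.commutator_mem_commutator hg' (vG_mem k))) hv
      rcases Int.units_eq_one_or (par k g) with h | h
      · exact key g h
      · have h2 : par k (g * xG 0) = 1 := by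
          rw [map_mul, h, par_x (by omega)]; simp
        have h3 := key _ h2
        have h4 : (xG 0 : G k)⁻¹ = xG 0 := inv_eq_of_mul_eq_one_left (xG_sq 0)
        have h5 : xG 0 * (vG k)⁻¹ * (xG 0 : G k)⁻¹ = vG k := by
          unfold vG
          rw [mul_inv_rev, mul_inv_rev, mul_inv_rev, h4, inv_inv]
          calc xG 0 * (xG 0 * (yG * (xG 0 * yG⁻¹))) * xG 0
              = (xG 0 * xG 0) * (yG * xG 0 * yG⁻¹ * xG 0) := by group
            _ = yG * xG 0 * yG⁻¹ * xG 0 := by rw [xG_sq, one_mul]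
        have e : g * vG k * g⁻¹ = ((g * xG 0) * vG k * (g * xG 0)⁻¹)⁻¹ := by
          calc g * vG k * g⁻¹ = g * (xG 0 * (vG k)⁻¹ * (xG 0 : G k)⁻¹) * g⁻¹ := by rw [h5]
            _ = _ := by group
        rw [e]
        exact inv_mem h3
    · intro c hc
      rw [Subgroup.mem_comap]
      exact hle (hC.conj_mem c hc g)
  exact ⟨fun n hn g => h1 g hn⟩

/-- piece `B9b-12`: `gD g * g⁻¹ ∈ S` for all `g ∈ G k`.
Proof. Let `q : G k →* G k ⧸ SS k` be the quotient map (`QuotientGroup.mk' _`, with `SS_normal`). The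
homomorphisms `q ∘ gD` and `q` are equal by `homG_ext`: for `x_i`, `i > 0`: `gD x_i = x_i`; for `x_0`:
`gD x_0 * x_0⁻¹ = vG k ∈ SS k`; for `y`: `gD y * y⁻¹ = y (x_0 y x_0 y⁻¹) y⁻¹ = y (vG k)⁻¹ y⁻¹ ∈ SS k` (`gD_x`,
`gD_y`, `gDC`). Then `q (gD g) = q g` gives `gD g * g⁻¹ ∈ SS k` (`QuotientGroup.eq`, normality). -/
theorem del_mem (g : G k) : gD g * g⁻¹ ∈ SS k := by
  have := SS_normal k
  have hv : vG k ∈ SS k := Subgroup.mem_sup_left (Subgroup.mem_zpowers (vG k))
  have key : (QuotientGroup.mk' (SS k)).comp (gD : MulAut (G k)).toMonoidHom =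
      QuotientGroup.mk' (SS k) := by
    refine homG_ext (fun i hi => ?_) ?_
    · change ((gD (xG i : G k) : G k) : G k ⧸ SS k) = ((xG i : G k) : G k ⧸ SS k)
      rw [gD_x hi]
      rcases Nat.eq_zero_or_pos i with rfl | h0
      · rw [QuotientGroup.eq_iff_div_mem]
        have e : (gDC 0 : G k) / xG 0 = vG k := by
          rw [gDC, if_pos rfl, div_eq_mul_inv, xG_inv]
          rfl
        rw [e]
        exact hv
      · rw [gDC, if_neg (by omega)]
    · change ((gD (yG : G k) : G k) : G k ⧸ SS k) = ((yG : G k) : G k ⧸ SS k)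
      rw [gD_y, QuotientGroup.eq_iff_div_mem]
      have e : (yG * xG 0 * yG * xG 0 * yG⁻¹ : G k) / yG = yG * (vG k)⁻¹ * yG⁻¹ := by
        rw [vG, mul_inv_rev, mul_inv_rev, mul_inv_rev, xG_inv, inv_inv, div_eq_mul_inv]
        simp only [mul_assoc]
      rw [e]
      exact this.conj_mem _ (inv_mem hv) _
  have h1 : ((gD g : G k) : G k ⧸ SS k) = (g : G k ⧸ SS k) := DFunLike.congr_fun key g
  rw [QuotientGroup.eq_iff_div_mem, div_eq_mul_inv] at h1
  exact h1

/-- piece `B9b-13`: homomorphisms to commutative groups on `S`.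
Proof. `n.1 = v^e * c` with `c ∈ ⁅N k, N k⁆` (`Subgroup.mem_sup`, as `⁅N k, N k⁆` is normal, or directly
`Subgroup.mem_sup_of_normal_right`), `c = c'.1` with `c'` in the commutator subgroup of `N k`
(`Subgroup.map_subtype_commutator`), `μ c' = 1` (`Abelianization.commutator_subset_ker`), and
`n = vN k ^ e * c'`. -/
theorem hom_SS {V : Type*} [CommGroup V] (μ : N k →* V) {n : N k} (hn : n.1 ∈ SS k) :
    ∃ e : ℤ, μ n = μ (vN k) ^ e := by
  have hN : (N k).Normal := MonoidHom.normal_ker _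
  have hcn : (⁅N k, N k⁆ : Subgroup (G k)).Normal := Subgroup.commutator_normal _ _
  obtain ⟨a, ha, c, hc, hac⟩ := Subgroup.mem_sup_of_normal_right.1 hn
  obtain ⟨e, rfl⟩ := Subgroup.mem_zpowers_iff.1 ha
  have hc' : c ∈ (commutator (N k)).map (N k).subtype := by
    rw [Subgroup.map_subtype_commutator]
    exact hc
  obtain ⟨c', hc1, rfl⟩ := hc'
  have h1 : μ c' = 1 := Abelianization.commutator_subset_ker μ hc1
  have h2 : n = vN k ^ e * c' := by
    apply Subtype.ext
    rw [Subgroup.coe_mul, Subgroup.coe_zpow]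
    exact hac.symm
  exact ⟨e, by rw [h2, map_mul, map_zpow, h1, mul_one]⟩

/-- piece `B9b-14`: the action of `κ' = a_{k-1} ⋯ a_0` and of `κ = a_0 ⋯ a_{k-1}` on `G k`.
Proof. (1) Induction on `p`: `krev gA p (x_j) = x_{j-1}` for `1 ≤ j ≤ p` and `= x_j` for `j > p`
(`krev gA (p+1) = gA p * krev gA p`; `MulAut.mul_apply`, `gA_x`, `gC`). (2) Induction on `p`:
`kap gA p (x_p) = x_0` (`kap gA (p+1) = kap gA p * gA p`, `gA p x_{p+1} = x_p`), and
`kap gA p (x_j) = x_j` for `j > p`, and for `i < p`: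
`kap gA p (x_i) = x_0 x_{i+1} x_0`: for `p = i + 1`: `gA i x_i = x_i x_{i+1} x_i`, and `kap gA i` maps it to
`x_0 x_{i+1} x_0`; for `p + 1 > i + 1`: `gA p` fixes `x_i`. (3) both fix `y` (`gA_y`). -/
theorem kap_krev_x {j : ℕ} (h0 : 1 ≤ j) (hj : j ≤ k) :
    kap (gA : ℕ → MulAut (G k)) k (krev gA k (xG j)) = xG 0 * xG j * xG 0 := by
  have h1 : ∀ p, p ≤ k → ∀ i, i ≤ k →
      krev (gA : ℕ → MulAut (G k)) p (xG i) =
        if 1 ≤ i ∧ i ≤ p then xG (i - 1) else
          if p < i then xG i else krev (gA : ℕ → MulAut (G k)) p (xG i) := by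
    intro p
    induction p with
    | zero =>
      intro _ i _
      rw [if_neg (by omega)]
      split_ifs with h
      · rfl
      · rfl
    | succ p ih =>
      intro hp i hi
      have e : krev (gA : ℕ → MulAut (G k)) (p + 1) (xG i) =
          gA p (krev (gA : ℕ → MulAut (G k)) p (xG i)) := rfl
      by_cases hc : 1 ≤ i ∧ i ≤ p + 1
      · rw [if_pos hc, e]
        by_cases hc' : i ≤ p
        · rw [ih (by omega) i hi, if_pos ⟨hc.1, hc'⟩, gA_x (by omega) (by omega), gC,
            if_neg (by omega), if_neg (by omega)]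
        · rw [ih (by omega) i hi, if_neg (by omega), if_pos (by omega), gA_x (by omega) hi, gC,
            if_neg (by omega), if_pos (by omega)]
          congr 1
          omega
      · rw [if_neg hc]
        split_ifs with h
        · rw [e, ih (by omega) i hi, if_neg (by omega), if_pos (by omega), gA_x (by omega) hi, gC,
            if_neg (by omega), if_neg (by omega)]
        · rfl
  have h2 : ∀ p, p ≤ k → ∀ i, i ≤ k →
      kap (gA : ℕ → MulAut (G k)) p (xG i) =
        if i < p then xG 0 * xG (i + 1) * xG 0 else if i = p then xG 0 else xG i := by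
    intro p
    induction p with
    | zero =>
      intro _ i _
      rw [if_neg (by omega)]
      split_ifs with h
      · subst h; rfl
      · rfl
    | succ p ih =>
      intro hp i hi
      have e : kap (gA : ℕ → MulAut (G k)) (p + 1) (xG i) =
          kap (gA : ℕ → MulAut (G k)) p (gA p (xG i)) := rfl
      rw [e, gA_x (by omega) hi, gC]
      rcases lt_trichotomy i p with h | h | h
      · rw [if_neg (by omega), if_neg (by omega), ih (by omega) i hi, if_pos h, if_pos (by omega)]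
      · subst h
        rw [if_pos rfl, if_pos (by omega), map_mul, map_mul, ih (by omega) i hi,
          ih (by omega) (i + 1) (by omega), if_neg (by omega), if_pos rfl, if_neg (by omega),
          if_neg (by omega)]
      · rw [if_neg (by omega)]
        by_cases h' : i = p + 1
        · rw [if_pos h', ih (by omega) p (by omega), if_neg (by omega), if_pos rfl,
            if_neg (by omega), if_pos h']
        · rw [if_neg h', ih (by omega) i hi, if_neg (by omega), if_neg (by omega),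
            if_neg (by omega), if_neg h']
  rw [h1 k le_rfl j hj, if_pos ⟨h0, hj⟩, h2 k le_rfl (j - 1) (by omega), if_pos (by omega)]
  congr 3
  omega

/-- piece `B9b-14`: the action of `D = d κ κ'` on `x_j`, `j ≥ 1`.
Proof. `actA m (inc m (Dd (m+2) aH dH)) = gD * kap gA (m+2) * krev gA (m+2)` (induction on the length of the
products with `map_mul`, `inc_a`, `actA_a`), `kap_krev_x`, `gD_x`. -/
theorem act_D_x {j : ℕ} (h0 : 1 ≤ j) (hj : j ≤ m + 2) :
    actA m (inc m (Dd (m + 2) aH dH)) (xG j) = cG (m + 2) * xG j * cG (m + 2) := by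
  have h1 : ∀ p, p ≤ m + 2 → actA m (inc m (kap aH p)) = kap gA p := by
    intro p
    induction p with
    | zero =>
      intro _
      change actA m (inc m 1) = 1
      rw [map_one, map_one]
    | succ p ih =>
      intro hp
      change actA m (inc m (kap aH p * aH p)) = kap gA p * gA p
      rw [map_mul, map_mul, ih (by omega), inc_a (by omega), actA_a (by omega)]
  have h2 : ∀ p, p ≤ m + 2 → actA m (inc m (krev aH p)) = krev gA p := by
    intro p
    induction p with
    | zero =>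
      intro _
      change actA m (inc m 1) = 1
      rw [map_one, map_one]
    | succ p ih =>
      intro hp
      change actA m (inc m (aH p * krev aH p)) = gA p * krev gA p
      rw [map_mul, map_mul, ih (by omega), inc_a (by omega), actA_a (by omega)]
  have h3 : actA m (inc m (Dd (m + 2) aH dH)) = gD * kap gA (m + 2) * krev gA (m + 2) := by
    rw [Dd, map_mul, map_mul, map_mul, map_mul, h1 _ le_rfl, h2 _ le_rfl, inc_d, actA_d]
  rw [h3, MulAut.mul_apply, MulAut.mul_apply, kap_krev_x h0 hj, map_mul, map_mul,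
    gD_x (by omega), gD_x hj, gDC, gDC, if_pos rfl, if_neg (by omega)]
  rfl

/-- the inversion of a commutative group -/
def invAct (V : Type*) [CommGroup V] : ℤˣ →* MulAut V :=
  c2hom (MulEquiv.inv V) (by ext x; simp)

/-- the homomorphism from `G k` to a generalized dihedral group -/
def lamG (k : ℕ) {V : Type*} [CommGroup V] (p : ℕ → V) : G k →* V ⋊[invAct V] ℤˣ :=
  liftG (fun i => ⟨p i, -1⟩) (fun i _ => by
    refine SemidirectProduct.ext ?_ ?_
    · rw [SemidirectProduct.mul_left]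
      simp [invAct]
    · rw [SemidirectProduct.mul_right]
      simp) ⟨1, (-1) ^ (k + 1)⟩

/-- piece `B9b-15`: Proof. `homG_ext` as in `xGh_right` (`Hat.lean`). -/
theorem lamG_right {V : Type*} [CommGroup V] (p : ℕ → V) (g : G k) :
    (lamG k p g).right = par k g := by
  have h : (SemidirectProduct.rightHom : V ⋊[invAct V] ℤˣ →* ℤˣ).comp (lamG k p) = par k := by
    apply homG_ext
    · intro i hi
      rw [MonoidHom.comp_apply]
      unfold lamG par
      rw [liftG_x _ _ _ hi, liftG_x _ _ _ hi]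
      rfl
    · rw [MonoidHom.comp_apply]
      unfold lamG par
      rw [liftG_y, liftG_y]
      rfl
  exact DFunLike.congr_fun h g

/-- the homomorphism `N → V` with `x_i x_j ↦ p_i / p_j` -/
def lam (k : ℕ) {V : Type*} [CommGroup V] (p : ℕ → V) : N k →* V where
  toFun n := (lamG k p n.1).left
  map_one' := by
    change (lamG k p 1).left = 1
    rw [map_one]; rfl
  map_mul' := by
    intro x y
    change (lamG k p (x.1 * y.1)).left = _
    rw [map_mul, SemidirectProduct.mul_left, lamG_right]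
    have h : par k x.1 = 1 := x.2
    rw [h, map_one]; rfl

/-- piece `B9b-15`: Proof. `(lamG k p n).right = 1`, `(lamG k p c).right = -1`; in the semidirect product
`(z, -1) (w, 1) (z, -1)⁻¹ = (w⁻¹, 1)`. -/
theorem lam_conj {V : Type*} [CommGroup V] (p : ℕ → V) {c : G k} (hc : par k c = -1)
    {n n' : N k} (h : n'.1 = c * n.1 * c⁻¹) : lam k p n' = (lam k p n)⁻¹ := by
  change (lamG k p n'.1).left = ((lamG k p n.1).left)⁻¹
  have hn : (lamG k p n.1).right = 1 := by
    rw [lamG_right]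
    exact n.2
  have hc' : (lamG k p c).right = -1 := by rw [lamG_right, hc]
  have e : lamG k p n'.1 * lamG k p c = lamG k p c * lamG k p n.1 := by
    rw [← map_mul, ← map_mul, h, inv_mul_cancel_right]
  have hn' : (lamG k p n'.1).right = 1 := by
    rw [lamG_right]
    exact n'.2
  have e1 := congrArg SemidirectProduct.left e
  rw [SemidirectProduct.mul_left, SemidirectProduct.mul_left, hn', hc', map_one] at e1
  have e2 : (invAct V (-1)) (lamG k p n.1).left = ((lamG k p n.1).left)⁻¹ := by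
    unfold invAct
    rw [c2hom_neg]
    rfl
  rw [e2, MulAut.one_apply, mul_comm] at e1
  exact mul_left_cancel e1

/-- piece `B9b-15`: Proof. `(p_i, -1) (p_j, -1) = (p_i p_j⁻¹, 1)` (`liftG_x`). -/
theorem lam_xx {V : Type*} [CommGroup V] (p : ℕ → V) {i j : ℕ} (hi : i ≤ k) (hj : j ≤ k)
    {n : N k} (h : n.1 = xG i * xG j) : lam k p n = p i * (p j)⁻¹ := by
  change (lamG k p n.1).left = _
  rw [h, map_mul, SemidirectProduct.mul_left]
  have hi' : lamG k p (xG i) = ⟨p i, -1⟩ := liftG_x _ _ _ hi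
  have hj' : lamG k p (xG j) = ⟨p j, -1⟩ := liftG_x _ _ _ hj
  rw [hi', hj']
  have e2 : (invAct V (-1)) (p j) = (p j)⁻¹ := by
    unfold invAct
    rw [c2hom_neg]
    rfl
  change p i * (invAct V (-1)) (p j) = _
  rw [e2]

/-- piece `B9b-16`: the effect of `D` on homomorphisms `λ ∘ φ`.
Proof. Write `φ (nA n) = nA (f n)` with a homomorphism `f : N →* N` (choice; multiplicativity by `nA_inj`) and
`v' = f (vN)`; `f` is surjective (`hN'`). `φ dA = inc (Tr l (Sp dH)) = inc D * ζ^q`, `q = (m+2) l` (`inc_d`,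
`Tr_Sp_d`, `inc_zeta`). Given `n`, let `n' = r^(-q) n r^q` (`r = rN m`) and `n' = f n₀`. By `nA_equiv`:
`φ (dA nA(n₀) dA⁻¹) = nA (f (actN m dA n₀))` and also
`= (inc D ζ^q) nA(n') (inc D ζ^q)⁻¹ = inc D nA(n) (inc D)⁻¹ = nA (actN m (inc D) n)` (`nA_r`), so
`f (actN m dA n₀) = actN m (inc D) n`. By `del_mem` and `hom_SS` with `μ = λ ∘ f`:
`μ (actN m dA n₀ * n₀⁻¹) = μ (vN)^e = λ (v')^e`. The left side is `λ (actN m (inc D) n) * λ (n')⁻¹` and
`λ n' = λ n` (`V` is commutative). -/
theorem act_D_lam {φ : MulAut (A m)} {l : ℤ}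
    (h : ∀ x, φ (inc m x) = inc m (Tr (m + 2) l (Sp (m + 2) x)))
    (hN : ∀ n : N (m + 2), ∃ n' : N (m + 2), φ (nA m n) = nA m n')
    (hN' : ∀ n : N (m + 2), ∃ n' : N (m + 2), φ.symm (nA m n) = nA m n') :
    ∃ v' : N (m + 2), ∀ {V : Type} [CommGroup V] (μ : N (m + 2) →* V) (n : N (m + 2)),
      ∃ e : ℤ, μ (actN m (inc m (Dd (m + 2) aH dH)) n) = μ n * μ v' ^ e := by
  choose f hf using hN
  have hmul : ∀ a b, f (a * b) = f a * f b := fun a b => nA_inj (by
    rw [← hf, map_mul, map_mul, hf, hf, map_mul])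
  let F : N (m + 2) →* N (m + 2) := MonoidHom.mk' f hmul
  have hF : ∀ n, φ (nA m n) = nA m (F n) := hf
  have hsurj : ∀ n, ∃ n0, F n0 = n := by
    intro n
    obtain ⟨n0, h0⟩ := hN' n
    refine ⟨n0, nA_inj ?_⟩
    rw [← hF, ← h0, MulEquiv.apply_symm_apply]
  obtain ⟨q, hd⟩ : ∃ q : ℤ, φ dA = inc m (Dd (m + 2) aH dH) * zeA m ^ q :=
    ⟨((m + 2 : ℕ) : ℤ) * l, by rw [← inc_d, h, Tr_Sp_d, map_mul, map_zpow, inc_zeta]⟩
  refine ⟨F (vN (m + 2)), fun {V} _ μ n => ?_⟩
  obtain ⟨n0, h0⟩ := hsurj ((rN m ^ q)⁻¹ * n * rN m ^ q)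
  have h1 : F (actN m dA n0) = actN m (inc m (Dd (m + 2) aH dH)) n := by
    apply nA_inj
    rw [← hF, ← nA_equiv, ← nA_equiv, map_mul, map_mul, map_inv, hF, h0, hd, map_mul, map_mul,
      map_inv, map_zpow, nA_r]
    group
  have h2 : (actN m dA n0 * n0⁻¹).1 ∈ SS (m + 2) := by
    have h3 := del_mem n0.1
    rw [← actA_d] at h3
    exact h3
  obtain ⟨e, he⟩ := hom_SS (μ.comp F) h2
  refine ⟨e, ?_⟩
  rw [map_mul, map_inv] at he
  simp only [MonoidHom.comp_apply] at he
  rw [h1, h0] at he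
  have h3 : μ ((rN m ^ q)⁻¹ * n * rN m ^ q) = μ n := by
    rw [map_mul, map_mul, map_inv, mul_right_comm, inv_mul_cancel, one_mul]
  rw [h3] at he
  rw [← he, mul_comm (μ n), inv_mul_cancel_right]

/-- `x_i x_j` as an element of `N` -/
def xxN {i j : ℕ} (hi : i ≤ k) (hj : j ≤ k) : N k := ⟨xG i * xG j, by
  rw [mem_N, map_mul, par_x hi, par_x hj]; simp⟩

/-- the assembly: `end_two` -/
theorem end_two' (hm : 1 ≤ m) {φ : MulAut (A m)} {l : ℤ}
    (h : ∀ x, φ (inc m x) = inc m (Tr (m + 2) l (Sp (m + 2) x)))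
    (hN : ∀ n : N (m + 2), ∃ n' : N (m + 2), φ (nA m n) = nA m n')
    (hN' : ∀ n : N (m + 2), ∃ n' : N (m + 2), φ.symm (nA m n) = nA m n') : False := by
  obtain ⟨v', hv'⟩ := act_D_lam h hN hN'
  -- the positions
  let p : ℕ → Multiplicative (ℤ × ℤ) := fun i =>
    if i = 1 then Multiplicative.ofAdd (1, 0) else if i = 3 then Multiplicative.ofAdd (0, 1) else 1
  have key : ∀ i j : ℕ, 1 ≤ i → 1 ≤ j → ∀ (hi : i ≤ m + 2) (hj : j ≤ m + 2),
      ∃ e : ℤ, (p i * (p j)⁻¹)⁻¹ = p i * (p j)⁻¹ * lam (m + 2) p v' ^ e := by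
    intro i j h1 h2 hi hj
    obtain ⟨e, he⟩ := hv' (lam (m + 2) p) (xxN hi hj)
    refine ⟨e, ?_⟩
    have e1 : (actN m (inc m (Dd (m + 2) aH dH)) (xxN hi hj)).1 =
        cG (m + 2) * (xxN hi hj).1 * (cG (m + 2))⁻¹ := by
      change actA m (inc m (Dd (m + 2) aH dH)) (xG i * xG j) =
        cG (m + 2) * (xG i * xG j) * (cG (m + 2))⁻¹
      rw [map_mul, act_D_x h1 hi, act_D_x h2 hj, cG_inv]
      calc cG (m + 2) * xG i * cG (m + 2) * (cG (m + 2) * xG j * cG (m + 2))
          = cG (m + 2) * xG i * (cG (m + 2) * cG (m + 2)) * xG j * cG (m + 2) := by group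
        _ = _ := by rw [cG_sq]; group
    rw [lam_conj p par_cG e1, lam_xx p hi hj rfl] at he
    exact he
  obtain ⟨e, he⟩ := key 1 2 (by omega) (by omega) (by omega) (by omega)
  obtain ⟨f, hf⟩ := key 2 3 (by omega) (by omega) (by omega) (by omega)
  generalize lam (m + 2) p v' = w at he hf
  have e1 := congrArg Multiplicative.toAdd he
  have e2 := congrArg Multiplicative.toAdd hf
  simp only [p, toAdd_inv, toAdd_mul, toAdd_zpow] at e1 e2
  have a1 := congrArg Prod.fst e1
  have a2 := congrArg Prod.snd e1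
  have b2 := congrArg Prod.snd e2
  simp at a1 a2 b2
  rcases a2 with h0 | h0
  · rw [h0] at a1; omega
  · rw [h0] at b2; omega

end Pool.Agent.Helper38.BN.E9
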