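import Pool.Agent.Helper60.BN9.Basic
import Pool.Agent.Helper38.BT.Cop

/-!
# Project BN, block B9b: `G k` is the free product of `⟨r⟩` and `⟨x_0, …, x_k⟩`
-/

namespace Pool.Agent.Helper38.BN.E9

open Pool.Agent.Helper7.AG (FreeProd)
open Monoid

variable {m k : ℕ}

/-- the factors of `XX k` -/
def XM (k : ℕ) (_ : Fin (k + 1)) : Type := ℤˣ

instance (k : ℕ) (i : Fin (k + 1)) : Group (XM k i) := inferInstanceAs (Group ℤˣ)

/-- the free product of `k + 1` groups of order two -/
abbrev XX (k : ℕ) : Type := CoprodI (XM k)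

/-- the factors of the homomorphism to `G k` -/
def jXf (k : ℕ) (i : Fin (k + 1)) : XM k i →* G k :=
  (c2hom (xG i.val) (xG_sq i.val) : ℤˣ →* G k)

/-- the homomorphism to `G k` -/
def jX (k : ℕ) : XX k →* G k := CoprodI.lift (jXf k)

/-- the generators -/
def xX {k : ℕ} (i : ℕ) : XX k :=
  if h : i < k + 1 then
    CoprodI.of (M := XM k) (i := ⟨i, h⟩) (show XM k ⟨i, h⟩ from (-1 : ℤˣ)) else 1

lemma jX_x (i : ℕ) : jX k (xX i) = xG i := by
  unfold xX
  split_ifs with h
  · unfold jX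
    rw [CoprodI.lift_of]
    exact c2hom_neg (xG i) (xG_sq i)
  · rw [map_one, xG_ge (by omega)]

lemma xX_sq (i : ℕ) : (xX i : XX k) * xX i = 1 := by
  unfold xX
  split_ifs with h
  · rw [← map_mul]
    have : (show XM k ⟨i, h⟩ from (-1 : ℤˣ)) * (show XM k ⟨i, h⟩ from (-1 : ℤˣ)) = 1 := by
      change (-1 : ℤˣ) * (-1) = 1
      simp
    rw [this, map_one]
  · rw [one_mul]

/-- the product of the generators -/
def xwX {k : ℕ} : ℕ → XX k
  | 0 => xX 0
  | j + 1 => xwX j * xX (j + 1)

lemma jX_xw (j : ℕ) : jX k (xwX j) = xw j := by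
  induction j with
  | zero => exact jX_x 0
  | succ j ih =>
    change jX k (xwX j * xX (j + 1)) = xw j * xG (j + 1)
    rw [map_mul, ih, jX_x]

/-- the homomorphism `⟨r⟩ * XX → G` -/
private def eX (k : ℕ) : Coprod (Multiplicative ℤ) (XX k) →* G k :=
  Coprod.lift (zpowersHom (G k) (rG k)) (jX k)

private lemma eXX (i : ℕ) : (Coprod.inr (xX i) : Coprod (Multiplicative ℤ) (XX k)) *
    Coprod.inr (xX i) = 1 := by
  rw [← map_mul, xX_sq, map_one]

/-- the homomorphism `G → ⟨r⟩ * XX` -/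
private def eX' (k : ℕ) : G k →* Coprod (Multiplicative ℤ) (XX k) :=
  liftG (fun i => Coprod.inr (xX i)) (fun i _ => eXX i)
    (Coprod.inl (Multiplicative.ofAdd (1 : ℤ)) * (Coprod.inr (xwX k))⁻¹)

private lemma eX_inl (a : Multiplicative ℤ) : eX k (Coprod.inl a) = zpowersHom (G k) (rG k) a :=
  Coprod.lift_apply_inl _ _ _

private lemma eX_inr (a : XX k) : eX k (Coprod.inr a) = jX k a :=
  Coprod.lift_apply_inr _ _ _

private lemma eX'_x (i : ℕ) : eX' k (xG i) = Coprod.inr (xX i) := by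
  rcases Nat.lt_or_ge i (k + 1) with h | h
  · exact liftG_x _ _ _ (by omega)
  · have h1 : (xX i : XX k) = 1 := dif_neg (by omega)
    rw [xG_ge h, h1, map_one, map_one]

private lemma eX'_xw (j : ℕ) : eX' k (xw j) = Coprod.inr (xwX j) := by
  induction j with
  | zero => exact eX'_x 0
  | succ j ih =>
    change eX' k (xw j * xG (j + 1)) = Coprod.inr (xwX j * xX (j + 1))
    rw [map_mul, map_mul, ih, eX'_x]

private lemma eX_eX' : (eX k).comp (eX' k) = MonoidHom.id _ := by
  apply homG_ext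
  · intro i hi
    rw [MonoidHom.comp_apply, eX'_x, eX_inr, jX_x, MonoidHom.id_apply]
  · rw [MonoidHom.comp_apply, MonoidHom.id_apply]
    unfold eX'
    rw [liftG_y, map_mul, map_inv, eX_inl, eX_inr, jX_xw]
    have h1 : zpowersHom (G k) (rG k) (Multiplicative.ofAdd (1 : ℤ)) = rG k := by simp
    rw [h1]
    unfold rG
    rw [mul_inv_cancel_right]

private lemma eX'_eX : (eX' k).comp (eX k) = MonoidHom.id _ := by
  refine Coprod.hom_ext ?_ ?_
  · apply MonoidHom.ext_mint
    simp only [MonoidHom.comp_apply, MonoidHom.id_apply]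
    rw [eX_inl]
    have h1 : zpowersHom (G k) (rG k) (Multiplicative.ofAdd (1 : ℤ)) = rG k := by simp
    rw [h1]
    unfold rG
    rw [map_mul, eX'_xw]
    unfold eX'
    rw [liftG_y, inv_mul_cancel_right]
  · refine CoprodI.ext_hom _ _ fun i => ?_
    have h1 : (CoprodI.of (M := XM k) (i := i) (show XM k i from (-1 : ℤˣ)) : XX k) =
        xX i.val := by
      unfold xX
      rw [dif_pos i.isLt]
    have h2 : ((((eX' k).comp (eX k)).comp Coprod.inr).comp (CoprodI.of (M := XM k) (i := i)) :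
        ℤˣ →* Coprod (Multiplicative ℤ) (XX k)) =
        ((MonoidHom.id (Coprod (Multiplicative ℤ) (XX k))).comp Coprod.inr).comp
          (CoprodI.of (M := XM k) (i := i)) := by
      apply homC2_ext
      change eX' k (eX k (Coprod.inr (CoprodI.of (M := XM k) (i := i)
        (show XM k i from (-1 : ℤˣ))))) = Coprod.inr (CoprodI.of (M := XM k) (i := i)
        (show XM k i from (-1 : ℤˣ)))
      rw [h1, eX_inr, jX_x, eX'_x]
    exact h2

/-- `G k` is the free product of `⟨r⟩` and `⟨x_0, …, x_k⟩` -/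
theorem split_r (k : ℕ) : FreeProd (zpowersHom (G k) (rG k)) (jX k) := by
  have h := (Pool.Agent.Helper38.BT.freeProd_coprod (Multiplicative ℤ) (XX k)).equiv
    (MonoidHom.toMulEquiv (eX k) (eX' k) eX'_eX eX_eX')
  have h1 : (MonoidHom.toMulEquiv (eX k) (eX' k) eX'_eX eX_eX').toMonoidHom.comp Coprod.inl =
      zpowersHom (G k) (rG k) := MonoidHom.ext fun a => eX_inl a
  have h2 : (MonoidHom.toMulEquiv (eX k) (eX' k) eX'_eX eX_eX').toMonoidHom.comp Coprod.inr =
      jX k := MonoidHom.ext fun a => eX_inr a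
  rwa [h1, h2] at h

end Pool.Agent.Helper38.BN.E9
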