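import Pool.Agent.Helper60.BN9.Fix
import Pool.Agent.Helper60.BN9.SplitR
import Pool.Agent.Helper7.AG.Fv

/-!
# Project BN, block B9b, pieces BN-B9b-7, BN-B9b-8, BN-B9b-9: the image of `u`; the end if `φ` is `Tr l`
-/

namespace Pool.Agent.Helper38.BN.E9

open Pool.Agent.Helper7.AG (FreeProd mult_word)

variable {m k : ℕ}

private lemma pw_dih (l : ℤ) (h : ((DihedralGroup.sr 0 : DihedralGroup 0) * DihedralGroup.sr 1) ^ l =
    (DihedralGroup.sr 0) ^ l * (DihedralGroup.sr 1) ^ l) : l = 0 ∨ l = 1 := by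
  have hx : ∀ a : ZMod 0, (DihedralGroup.sr a : DihedralGroup 0) * DihedralGroup.sr a = 1 :=
    fun a => DihedralGroup.sr_mul_self a
  have hxy : (DihedralGroup.sr 0 : DihedralGroup 0) * DihedralGroup.sr 1 =
      DihedralGroup.r 1 := by
    rw [DihedralGroup.sr_mul_sr, sub_zero]
  have hr : (DihedralGroup.r (1 : ZMod 0) : DihedralGroup 0) ^ l = DihedralGroup.r (l : ℤ) := by
    rw [DihedralGroup.r_one_zpow]
    rfl
  have he : ∀ (a : ZMod 0) (m : ℤ), (DihedralGroup.sr a : DihedralGroup 0) ^ (m + m) = 1 := by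
    intro a m
    rw [← two_mul, zpow_mul, zpow_two, hx, one_zpow]
  rcases Int.even_or_odd l with ⟨m, hm⟩ | ⟨m, hm⟩
  · left
    rw [hxy, hr, hm, he, he, one_mul] at h
    rw [hm]
    have h1 : (DihedralGroup.r ((m + m : ℤ) : ZMod 0) : DihedralGroup 0) = DihedralGroup.r 0 := h
    exact DihedralGroup.r.inj h1
  · right
    have h2 : ∀ a : ZMod 0, (DihedralGroup.sr a : DihedralGroup 0) ^ l = DihedralGroup.sr a := by
      intro a
      rw [hm, two_mul, zpow_add_one, he, one_mul]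
    rw [h2, h2, hxy, hr] at h
    exact DihedralGroup.r.inj h

/-- piece `B9b-7`. Proof. Apply the homomorphism `liftG X _ 1 : G (m+2) →* DihedralGroup 0` with
`X (m+2) = sr 0`, `X m = sr 1`, `X i = 1` otherwise (in particular `x_{m+1} ↦ 1`). With `A = sr 0`, `B = sr 1`:
`(A B)^i = A^i B^i`. This gives `i = 0 ∨ i = 1`: see the private lemma `B2_dih` in
`Pool/Agent/Helper38/BT/B2.lean` (copy its proof). -/
theorem pow_word {i : ℤ} (h : (xG (m + 2) * xG m : G (m + 2)) ^ i =
    (xG (m + 2) * xG (m + 1)) ^ i * (xG (m + 1) * xG m) ^ i) : i = 0 ∨ i = 1 := by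
  have hX : ∀ j, j ≤ m + 2 → (if j = m + 2 then (DihedralGroup.sr 0 : DihedralGroup 0)
      else if j = m then DihedralGroup.sr 1 else 1) *
      (if j = m + 2 then (DihedralGroup.sr 0 : DihedralGroup 0)
      else if j = m then DihedralGroup.sr 1 else 1) = 1 := by
    intro j _
    split_ifs
    · exact DihedralGroup.sr_mul_self 0
    · exact DihedralGroup.sr_mul_self 1
    · exact one_mul 1
  have h1 := congrArg (liftG (k := m + 2) (fun j => if j = m + 2 then
    (DihedralGroup.sr 0 : DihedralGroup 0) else if j = m then DihedralGroup.sr 1 else 1) hX 1) h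
  rw [map_mul, map_zpow, map_zpow, map_zpow, map_mul, map_mul, map_mul, liftG_x _ _ _ (by omega),
    liftG_x _ _ _ (by omega), liftG_x _ _ _ (by omega), if_pos rfl, if_neg (by omega), if_pos rfl,
    if_neg (by omega), if_neg (by omega), mul_one, one_mul] at h1
  exact pw_dih i h1

/-- piece `B9b-7`. Proof. Apply the homomorphism `liftG X _ 1 : G (m+2) →* DihedralGroup 0` with
`X (m+2) = sr 1`, `X (m+1) = X m = sr 0`, `X i = 1` otherwise: the second factor goes to `1`
(`sr 0 * sr 0 = 1`), the first to `(sr 1 * sr 0)^i = r (-i)` or `r i`, which is `≠ 1`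
(`DihedralGroup.sr_mul_sr`, `DihedralGroup.r_one_zpow`). -/
theorem ne_word {i : ℤ} (hi : i ≠ 0) (i' : ℤ) :
    (xG (m + 2) * xG (m + 1) : G (m + 2)) ^ i * (xG (m + 1) * xG m) ^ i' ≠ 1 := by
  intro h
  have hX : ∀ j, j ≤ m + 2 → (if j = m + 2 then (DihedralGroup.sr 0 : DihedralGroup 0)
      else if j = m ∨ j = m + 1 then DihedralGroup.sr 1 else 1) *
      (if j = m + 2 then (DihedralGroup.sr 0 : DihedralGroup 0)
      else if j = m ∨ j = m + 1 then DihedralGroup.sr 1 else 1) = 1 := by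
    intro j _
    split_ifs
    · exact DihedralGroup.sr_mul_self 0
    · exact DihedralGroup.sr_mul_self 1
    · exact one_mul 1
  have h1 := congrArg (liftG (k := m + 2) (fun j => if j = m + 2 then
    (DihedralGroup.sr 0 : DihedralGroup 0) else if j = m ∨ j = m + 1 then DihedralGroup.sr 1
    else 1) hX 1) h
  rw [map_one, map_mul, map_zpow, map_zpow, map_mul, map_mul, liftG_x _ _ _ (by omega),
    liftG_x _ _ _ (by omega), liftG_x _ _ _ (by omega), if_pos rfl, if_neg (by omega),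
    if_pos (Or.inr rfl), if_neg (by omega), if_pos (Or.inl rfl), DihedralGroup.sr_mul_self,
    one_zpow, mul_one, DihedralGroup.sr_mul_sr, sub_zero, DihedralGroup.r_one_zpow] at h1
  have h2 : (DihedralGroup.r ((i : ℤ) : ZMod 0) : DihedralGroup 0) = DihedralGroup.r 0 := h1
  exact hi (DihedralGroup.r.inj h2)

private lemma gA_rG' {j : ℕ} (hj : j < m + 2) : gA j (rG (m + 2) : G (m + 2)) = rG (m + 2) := by
  have h : actA m (aA j) (rN m).1 = (rN m).1 := by
    apply act_of_comm
    rw [nA_r]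
    exact zeA_comm_a hj
  rwa [actA_a hj] at h

/-- piece `B9b-8`: the values of `a_m`, `a_{m+1}` on `u = x_{m+2} x_{m+1}`. Proof. `gA_x`, `gC`. -/
theorem gA_u (m : ℕ) : gA m (xG (m + 2) * xG (m + 1) : G (m + 2)) = xG (m + 2) * xG m ∧
    gA (m + 1) (xG (m + 2) * xG m : G (m + 2)) = xG (m + 1) * xG m ∧
    gA m (rG (m + 2) : G (m + 2)) = rG (m + 2) ∧
    gA (m + 1) (rG (m + 2) : G (m + 2)) = rG (m + 2) := by
  refine ⟨?_, ?_, gA_rG' (by omega), gA_rG' (by omega)⟩
  · rw [map_mul, gA_x (by omega) (by omega), gA_x (by omega) (by omega)]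
    unfold gC
    rw [if_neg (by omega), if_neg (by omega), if_neg (by omega), if_pos rfl]
  · rw [map_mul, gA_x (by omega) (by omega), gA_x (by omega) (by omega)]
    unfold gC
    rw [if_neg (by omega), if_pos (by omega), if_neg (by omega), if_neg (by omega)]

private lemma zpH {Γ : Type} [Group Γ] (g : Γ) (a : Multiplicative ℤ) :
    zpowersHom Γ g a = g ^ a.toAdd := zpowersHom_apply Γ g a

private lemma zp_one {a : Multiplicative ℤ} (h : a.toAdd = 0) : a = 1 := h

private lemma zpH_inj {Γ : Type} [Group Γ] {g : Γ} (h : ∀ n : ℤ, g ^ n = 1 → n = 0) :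
    Function.Injective (zpowersHom Γ g) := by
  rw [injective_iff_map_eq_one]
  intro a ha
  rw [zpH] at ha
  exact zp_one (h _ ha)

/-- piece `B9b-9`: the possible images of `u`.
Proof. Let `u = x_{m+2} x_{m+1}` (`= (x_{m+1} x_{m+2})⁻¹`), `Γ = ℤ * ℤ` (coproduct) with the homomorphism
`E : Γ → G (m+2)`, `a ↦ r`, `b ↦ u`; `s = E t`. `mult_word` with the free products `Γ` and `split_r`,
`e₀ = gA m ∘ E`, `e₁ = E`, `e₂ = gA (m+1) ∘ gA m ∘ E` (the automorphisms fix `r`, `gA_u`),
`f₀ (b^i) = (x_{m+2} x_m)^i`, `f₁ (b^i) = u^i`, `f₂ (b^i) = (x_{m+1} x_m)^i`; `h12` is `ne_word`. The result: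
`s = 1` or `s = r^j u^i r^(-j)` with `i ≠ 0` and `(x_{m+2} x_m)^i = u^i (x_{m+1} x_m)^i`, so `i = 1`
(`pow_word`). -/
theorem word_s {s : G (m + 2)}
    (hs : s ∈ Subgroup.closure {rG (m + 2), (xG (m + 1) * xG (m + 2) : G (m + 2))})
    (h : s * gA (m + 1) (gA m s) = gA m s) :
    s = 1 ∨ ∃ j : ℤ, s = rG (m + 2) ^ j * (xG (m + 2) * xG (m + 1)) * (rG (m + 2) ^ j)⁻¹ := by
  obtain ⟨hu0, hu1, hr0, hr1⟩ := gA_u m
  let E : Monoid.Coprod (Multiplicative ℤ) (Multiplicative ℤ) →* G (m + 2) :=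
    Monoid.Coprod.lift (zpowersHom _ (rG (m + 2))) (zpowersHom _ (xG (m + 2) * xG (m + 1)))
  have El : ∀ a : Multiplicative ℤ, E (Monoid.Coprod.inl a) = zpowersHom _ (rG (m + 2)) a :=
    fun a => Monoid.Coprod.lift_apply_inl _ _ _
  have Er : ∀ a : Multiplicative ℤ, E (Monoid.Coprod.inr a) =
      zpowersHom _ (xG (m + 2) * xG (m + 1)) a := fun a => Monoid.Coprod.lift_apply_inr _ _ _
  obtain ⟨t, rfl⟩ : ∃ t, E t = s := by
    have hle : Subgroup.closure {rG (m + 2), (xG (m + 1) * xG (m + 2) : G (m + 2))} ≤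
        E.range := by
      rw [Subgroup.closure_le]
      rintro x (rfl | hx')
      · exact ⟨Monoid.Coprod.inl (Multiplicative.ofAdd 1), by rw [El, zpH, toAdd_ofAdd, zpow_one]⟩
      · rw [Set.mem_singleton_iff] at hx'
        refine ⟨Monoid.Coprod.inr (Multiplicative.ofAdd (-1)), ?_⟩
        rw [Er, zpH, hx', toAdd_ofAdd, zpow_neg, zpow_one, mul_inv_rev, xG_inv, xG_inv]
    exact hle hs
  have hfix : ∀ e : MulAut (G (m + 2)), e (rG (m + 2)) = rG (m + 2) →
      ∀ a : Multiplicative ℤ, (e.toMonoidHom.comp E) (Monoid.Coprod.inl a) =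
        zpowersHom _ (rG (m + 2)) a := by
    intro e he a
    change e (E (Monoid.Coprod.inl a)) = _
    rw [El, zpH, map_zpow, he]
  have hB : ∀ (e : MulAut (G (m + 2))) (w : XX (m + 2)),
      e (xG (m + 2) * xG (m + 1)) = jX (m + 2) w →
      ∀ a : Multiplicative ℤ, (e.toMonoidHom.comp E) (Monoid.Coprod.inr a) =
        jX (m + 2) (zpowersHom _ w a) := by
    intro e w he a
    change e (E (Monoid.Coprod.inr a)) = _
    rw [Er, zpH, zpH, map_zpow, map_zpow, he]
  have hinj : ∀ (e : MulAut (G (m + 2))) (w : XX (m + 2)),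
      e (xG (m + 2) * xG (m + 1)) = jX (m + 2) w →
      Function.Injective (zpowersHom (XX (m + 2)) w) := by
    intro e w he
    apply zpH_inj
    intro n hn
    by_contra h0
    have h1 := congrArg (jX (m + 2)) hn
    rw [map_zpow, ← he, ← map_zpow, map_one] at h1
    have h2 : (xG (m + 2) * xG (m + 1) : G (m + 2)) ^ n = 1 :=
      e.injective (h1.trans (map_one e).symm)
    exact ne_word (m := m) h0 0 (by rw [h2, one_mul, zpow_zero])
  have w0 : gA m (xG (m + 2) * xG (m + 1) : G (m + 2)) = jX (m + 2) (xX (m + 2) * xX m) := by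
    rw [hu0, map_mul, jX_x, jX_x]
  have w1 : (1 : MulAut (G (m + 2))) (xG (m + 2) * xG (m + 1) : G (m + 2)) =
      jX (m + 2) (xX (m + 2) * xX (m + 1)) := by
    rw [MulAut.one_apply, map_mul, jX_x, jX_x]
  have w2 : (gA (m + 1) * gA m : MulAut (G (m + 2))) (xG (m + 2) * xG (m + 1) : G (m + 2)) =
      jX (m + 2) (xX (m + 1) * xX m) := by
    rw [MulAut.mul_apply, hu0, hu1, map_mul, jX_x, jX_x]
  have key := mult_word (x := t)
    (Pool.Agent.Helper38.BT.freeProd_coprod (Multiplicative ℤ) (Multiplicative ℤ)) (split_r (m + 2))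
    (hfix (gA m) hr0) (hfix 1 rfl) (hfix (gA (m + 1) * gA m) (by rw [MulAut.mul_apply, hr0, hr1]))
    (hB _ _ w0) (hB _ _ w1) (hB _ _ w2) (hinj _ _ w0) (hinj _ _ w1) (hinj _ _ w2)
    (by
      intro b b' hb hb' h4
      have h5 := congrArg (jX (m + 2)) h4
      rw [zpH, zpH, map_mul, map_zpow, map_zpow, map_mul, map_mul, jX_x, jX_x, jX_x, map_one] at h5
      exact ne_word (m := m) (i := b.toAdd) (fun h0 => hb (zp_one h0)) b'.toAdd h5)
    (by
      change gA m (E t) = E t * (gA (m + 1) * gA m : MulAut (G (m + 2))) (E t)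
      rw [MulAut.mul_apply, h])
  rcases key with h2 | ⟨a, b, h2, h3, h4⟩
  · left
    rw [h2, map_one]
  · right
    have h5 := congrArg (jX (m + 2)) h4
    rw [zpH, zpH, zpH, map_mul, map_zpow, map_zpow, map_zpow, map_mul, map_mul, map_mul, jX_x,
      jX_x, jX_x] at h5
    rcases pow_word h5 with h6 | h6
    · exact absurd (zp_one h6) h2
    · refine ⟨a.toAdd, ?_⟩
      rw [h3, map_mul, map_mul, map_inv, El, Er, zpH, zpH, h6, zpow_one]

/-- piece `B9b-10`: the equation for the image of `u`.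
Proof. `bA = uA * aA (m+1)`, so `φ bA = nA m s * aA (m+1)`. The relation `(relA m).bb`:
`b c b = c b c` with `c = aA m`. With `a = aA (m+1)`: `nA s * a c * nA s * a = c * nA s * a * c`; as
`a c a = c a c` (`(relA m).braid m`), multiply with `(a c a)⁻¹` from the right:
`nA s * ((a c) nA s (a c)⁻¹) = c nA s c⁻¹`; by `nA_equiv`, `nA_inj` and `actA_a` the claim. Compare
`Pool/Agent/Helper38/BT/B3.lean` (`fix_acd`, the part `h4`). -/
theorem eq_s {φ : MulAut (A m)} (hφ : ∀ j, j < m + 2 → φ (aA j) = aA j) {s : N (m + 2)}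
    (hs : φ uA = nA m s) : s.1 * gA (m + 1) (gA m s.1) = gA m s.1 := by
  have hb : (bA : A m) = uA * aA (m + 1) := by rw [uA, inv_mul_cancel_right]
  have hφb : φ bA = nA m s * aA (m + 1) := by rw [hb, map_mul, hs, hφ _ (by omega)]
  have hbr : (aA (m + 1) : A m) * aA m * aA (m + 1) = aA m * aA (m + 1) * aA m :=
    ((relA m).braid m (by omega)).symm
  have h := congrArg φ (relA m).bb
  rw [map_mul, map_mul, map_mul, map_mul, hφ m (by omega), hφb] at h
  have key : nA m s * nA m (actN m (aA (m + 1) * aA m) s) = nA m (actN m (aA m) s) := by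
    rw [← nA_equiv, ← nA_equiv]
    apply mul_right_cancel (b := aA (m + 1) * aA m * aA (m + 1))
    calc nA m s * ((aA (m + 1) * aA m) * nA m s * (aA (m + 1) * aA m)⁻¹) *
          (aA (m + 1) * aA m * aA (m + 1))
        = nA m s * aA (m + 1) * aA m * (nA m s * aA (m + 1)) := by group
      _ = aA m * (nA m s * aA (m + 1)) * aA m := h
      _ = aA m * nA m s * (aA m)⁻¹ * (aA m * aA (m + 1) * aA m) := by group
      _ = aA m * nA m s * (aA m)⁻¹ * (aA (m + 1) * aA m * aA (m + 1)) := by rw [hbr]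
  rw [← map_mul] at key
  have h1 := congrArg Subtype.val (nA_inj key)
  have e1 : (actN m (aA (m + 1) * aA m) s).1 = gA (m + 1) (gA m s.1) := by
    change actA m (aA (m + 1) * aA m) s.1 = _
    rw [map_mul, actA_a (by omega), actA_a (by omega), MulAut.mul_apply]
  have e2 : (actN m (aA m) s).1 = gA m s.1 := by
    change actA m (aA m) s.1 = _
    rw [actA_a (by omega)]
  rw [← e1, ← e2]
  exact h1

/-- piece `B9b-10`: `φ` is a conjugation if `φ u` is `u`, conjugated with a power of `ζ`.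
Proof. `homA_ext` for `φ` and `MulAut.conj (ζ^j)`: `a_i` and `d` commute with `ζ` (`zeA_comm_a`, `zeA_comm_d`), and
`φ b = φ u * φ (a_{m+1}) = ζ^j u ζ^(-j) a_{m+1} = ζ^j (u a_{m+1}) ζ^(-j)`. Compare `BT/B3.lean`. -/
theorem conj_of_u {φ : MulAut (A m)} (hφ : ∀ j, j < m + 2 → φ (aA j) = aA j) (hd : φ dA = dA)
    {j : ℤ} (hu : φ uA = zeA m ^ j * uA * (zeA m ^ j)⁻¹) : φ = MulAut.conj (zeA m ^ j) := by
  have hb : (bA : A m) = uA * aA (m + 1) := by rw [uA, inv_mul_cancel_right]
  have hza : ∀ i, i < m + 2 → Commute (aA i : A m) (zeA m ^ j) := fun i hi =>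
    (show Commute (aA i : A m) (zeA m) from (zeA_comm_a hi).symm).zpow_right j
  have hzd : Commute (dA : A m) (zeA m ^ j) :=
    (show Commute (dA : A m) (zeA m) from (zeA_comm_d m).symm).zpow_right j
  have hconj : ∀ x : A m, Commute x (zeA m ^ j) → MulAut.conj (zeA m ^ j) x = x := by
    intro x hx
    rw [MulAut.conj_apply, ← hx.eq, mul_inv_cancel_right]
  have key : φ.toMonoidHom = (MulAut.conj (zeA m ^ j)).toMonoidHom := by
    apply homA_ext
    · intro i hi
      change φ (aA i) = MulAut.conj (zeA m ^ j) (aA i)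
      rw [hφ i hi, hconj _ (hza i hi)]
    · change φ bA = MulAut.conj (zeA m ^ j) bA
      rw [hb, map_mul, hu, hφ _ (by omega), map_mul, hconj _ (hza _ (by omega)),
        MulAut.conj_apply]
    · change φ dA = MulAut.conj (zeA m ^ j) dA
      rw [hd, hconj _ hzd]
  ext x
  exact DFunLike.congr_fun key x

/-- the assembly: `end_one` -/
theorem end_one' (hm : 1 ≤ m) {φ : MulAut (A m)} {l : ℤ}
    (h : ∀ x, φ (inc m x) = inc m (Tr (m + 2) l x))
    (hN : ∀ n : N (m + 2), ∃ n' : N (m + 2), φ (nA m n) = nA m n')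
    (hg : ∀ v : G (m + 2), (∀ i, i < m + 2 → i + 2 ≠ m + 2 → gA i (gA i v) = v) → gD v = v →
      v ∈ Subgroup.closure {rG (m + 2), (xG (m + 1) * xG (m + 2) : G (m + 2))}) :
    ∃ s, φ = MulAut.conj s := by
  have hl : l = 0 := l_zero hm h hN
  subst hl
  have ha : ∀ j, j < m + 2 → φ (aA j) = aA j := by
    intro j hj
    rw [phi_a h hj, zpow_zero, mul_one]
  have hd : φ dA = dA := by
    rw [← inc_d, h, Tr_d, mul_zero, zpow_zero, mul_one, inc_d]
  obtain ⟨s, hs⟩ := hN (uN m)
  rw [nA_u] at hs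
  have hcomm : ∀ x : A m, φ x = x → uA * x = x * uA → actA m x s.1 = s.1 := by
    intro x hx hc
    apply act_of_comm
    have := congrArg φ hc
    rwa [map_mul, map_mul, hx, hs] at this
  have h1 : ∀ i, i < m + 2 → i + 2 ≠ m + 2 → gA i s.1 = s.1 := by
    intro i hi hi'
    have h2 : actA m (aA i) s.1 = s.1 := by
      apply hcomm _ (ha i hi)
      rcases Nat.lt_or_ge i m with h3 | h3
      · exact u_comm_a h3
      · have e : i = m + 1 := by omega
        subst e
        exact u_comm_last m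
    rwa [actA_a hi] at h2
  have h2 : gD s.1 = s.1 := by
    have := hcomm dA hd (u_comm_d m)
    rwa [actA_d] at this
  have h3 := hg s.1 (fun i hi hi' => by rw [h1 i hi hi', h1 i hi hi']) h2
  rcases word_s h3 (eq_s ha hs) with h4 | ⟨j, hj⟩
  · exfalso
    have h5 : s = 1 := Subtype.ext h4
    rw [h5, map_one] at hs
    have h6 : (uA : A m) = 1 := φ.injective (hs.trans (map_one φ).symm)
    rw [← nA_u] at h6
    have h7 : uN m = 1 := nA_inj (h6.trans (map_one (nA m)).symm)
    have h8 := congrArg Subtype.val h7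
    exact u_not_r m 0 (by rw [zpow_zero]; exact h8)
  · refine ⟨zeA m ^ j, conj_of_u ha hd (j := j) ?_⟩
    have h5 : s = rN m ^ j * uN m * (rN m ^ j)⁻¹ := Subtype.ext (by rw [hj]; rfl)
    rw [hs, h5, map_mul, map_mul, map_inv, map_zpow, nA_r, nA_u]

end Pool.Agent.Helper38.BN.E9
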