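import Pool.Agent.Helper38.BN.IntK
import Pool.Agent.Helper38.BN.IntC
import Pool.Agent.Helper38.BN.IntS

/-!
# Project BN, block B9b: values on the generators
-/

namespace Pool.Agent.Helper38.BN.E9

variable {m k : ℕ}

lemma Tr_a {j : ℕ} (hj : j < k) (l : ℤ) : Tr k l (aH j) = aH j * zeH k ^ l := liftH_a _ hj
lemma Tr_d (k : ℕ) (l : ℤ) : Tr k l dH = dH * zeH k ^ (-(k : ℤ) * l) := liftH_d _
lemma Sp_a {j : ℕ} (hj : j < k) : Sp k (aH j) = (aH j)⁻¹ := liftH_a _ hj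
lemma Sp_d (k : ℕ) : Sp k dH = Dd k aH dH := liftH_d _
lemma inc_a {j : ℕ} (hj : j < m + 2) : inc m (aH j) = aA j := liftH_a _ hj
@[simp] lemma inc_d : inc m dH = dA := liftH_d _
lemma actA_a {j : ℕ} (hj : j < m + 2) : actA m (aA j) = gA j := liftA_a _ hj
@[simp] lemma actA_b : actA m bA = gB := liftA_b _
@[simp] lemma actA_d : actA m dA = gD := liftA_d _
lemma piA_a {j : ℕ} (hj : j < m + 2) : piA m (aA j) = Equiv.swap j (j + 1) := liftA_a _ hj
@[simp] lemma piA_b : piA m bA = Equiv.swap (m + 1) (m + 2) := liftA_b _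
@[simp] lemma piA_d : piA m dA = 1 := liftA_d _
lemma par_x {i : ℕ} (hi : i ≤ k) : par k (xG i) = -1 := liftG_x _ _ _ hi
@[simp] lemma par_y : par k yG = (-1) ^ (k + 1) := liftG_y _ _ _
lemma ab_a {j : ℕ} (hj : j < m + 2) : ab m (aA j) = Multiplicative.ofAdd ((1, 0) : ℤ × ℤ) :=
  liftA_a _ hj
@[simp] lemma ab_b : ab m bA = Multiplicative.ofAdd ((1, 0) : ℤ × ℤ) := liftA_b _
@[simp] lemma ab_d : ab m dA = Multiplicative.ofAdd ((0, 1) : ℤ × ℤ) := liftA_d _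

lemma mem_N {g : G k} : g ∈ N k ↔ par k g = 1 := Iff.rfl

/-- the normality of `N` -/
lemma conj_mem_N (g : G k) {n : G k} (hn : n ∈ N k) : g * n * g⁻¹ ∈ N k := by
  rw [mem_N] at hn ⊢
  rw [map_mul, map_mul, map_inv, hn, mul_one, mul_inv_cancel]

end Pool.Agent.Helper38.BN.E9
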