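import Pool.Agent.Helper60.BN9.Tw
import Pool.Agent.Helper38.BT.Ftw

/-!
# Project BN, block B9b, pieces BN-B9b-3, BN-B9b-4, BN-B9b-5: fixed elements; the twist is trivial
-/

namespace Pool.Agent.Helper38.BN.E9

open Pool.Agent.Helper7.AG (FreeProd)

variable {m k : ℕ}

/-- piece `B9b-3`: fixed elements of an automorphism which preserves both factors.
Proof. `Pool.Agent.Helper38.BT.fix_both h (e := e.toMonoidHom)` with `f`, `f'` the restrictions of `e`
to `A` and `B` (`MonoidHom.mk'` or `(e.toMonoidHom.comp A.subtype).codRestrict A _`); they are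
injective. The two generating sets have the same images. -/
theorem fix_sub {Γ : Type} [Group Γ] {A B : Subgroup Γ} (h : FreeProd A.subtype B.subtype)
    (e : MulAut Γ) (hA : ∀ a ∈ A, e a ∈ A) (hB : ∀ b ∈ B, e b ∈ B) {x : Γ} (hx : e x = x) :
    x ∈ Subgroup.closure ({a | a ∈ A ∧ e a = a} ∪ {b | b ∈ B ∧ e b = b}) := by
  let f : A →* A := (e.toMonoidHom.comp A.subtype).codRestrict A (fun a => hA a a.2)
  let f' : B →* B := (e.toMonoidHom.comp B.subtype).codRestrict B (fun b => hB b b.2)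
  have hf : Function.Injective f := by
    intro a a' haa
    exact Subtype.ext (e.injective (congrArg Subtype.val haa))
  have hf' : Function.Injective f' := by
    intro b b' hbb
    exact Subtype.ext (e.injective (congrArg Subtype.val hbb))
  have key := Pool.Agent.Helper38.BT.fix_both h (e := e.toMonoidHom) (f := f) (f' := f')
    (fun a => rfl) (fun b => rfl) hf hf' (x := x) hx
  refine Subgroup.closure_mono ?_ key
  apply Set.union_subset_union
  · rintro y ⟨a, ha, rfl⟩
    exact ⟨a.2, congrArg Subtype.val (show f a = a from ha)⟩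
  · rintro y ⟨b, hb, rfl⟩
    exact ⟨b.2, congrArg Subtype.val (show f' b = b from hb)⟩

section FixTwo

private theorem f2_gen {Γ A B : Type} [Group Γ] [Group A] [Group B] {i : A →* Γ} {j : B →* Γ}
    (h : FreeProd i j) (e : MulAut Γ) (hA : ∀ a, e (i a) ∈ i.range)
    (hB : ∀ b, e (j b) ∈ j.range) {x : Γ} (hx : e x = x) :
    x ∈ Subgroup.closure ({g | g ∈ i.range ∧ e g = g} ∪ {g | g ∈ j.range ∧ e g = g}) := by
  let f : A →* A := ((MonoidHom.ofInjective h.inj_left).symm.toMonoidHom).comp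
    ((e.toMonoidHom.comp i).codRestrict i.range hA)
  let f' : B →* B := ((MonoidHom.ofInjective h.inj_right).symm.toMonoidHom).comp
    ((e.toMonoidHom.comp j).codRestrict j.range hB)
  have he : ∀ a, e (i a) = i (f a) := by
    intro a
    have h1 := MonoidHom.apply_ofInjective_symm h.inj_left (⟨e (i a), hA a⟩ : i.range)
    exact h1.symm
  have he' : ∀ b, e (j b) = j (f' b) := by
    intro b
    have h1 := MonoidHom.apply_ofInjective_symm h.inj_right (⟨e (j b), hB b⟩ : j.range)
    exact h1.symm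
  have hf : Function.Injective f := by
    intro a a' haa
    have h1 := congrArg i haa
    rw [← he, ← he] at h1
    exact h.inj_left (e.injective h1)
  have hf' : Function.Injective f' := by
    intro a a' haa
    have h1 := congrArg j haa
    rw [← he', ← he'] at h1
    exact h.inj_right (e.injective h1)
  have h2 := Pool.Agent.Helper38.BT.fix_both h (e := e.toMonoidHom) (f := f) (f' := f') he he'
    hf hf' hx
  refine Subgroup.closure_mono ?_ h2
  rintro g (⟨a, ha, rfl⟩ | ⟨b, hb, rfl⟩)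
  · refine Or.inl ⟨⟨a, rfl⟩, ?_⟩
    rw [he]
    exact congrArg i ha
  · refine Or.inr ⟨⟨b, rfl⟩, ?_⟩
    rw [he']
    exact congrArg j hb

private theorem f2_ind {S : Option (Fin (k + 1)) → Prop} {T : Subgroup (G k)} (φ : G k →* G k)
    (hx : ∀ i : Fin (k + 1), S (some i) → φ (xG i) ∈ T) (hy : S none → φ yG ∈ T)
    (a : AS (GK k) S) : φ (iS (GK k) S a) ∈ T := by
  induction a using Monoid.CoprodI.induction_on with
  | one =>
    rw [map_one, map_one]
    exact T.one_mem
  | mul a b ha hb =>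
    rw [map_mul, map_mul]
    exact T.mul_mem ha hb
  | of o x =>
    rw [iS_of]
    obtain ⟨o, ho⟩ := o
    cases o with
    | none =>
      obtain ⟨n, hn⟩ : ∃ n : ℤ, x = (show GK k none from (Multiplicative.ofAdd (1 : ℤ))) ^ n := by
        have key : ∀ y : Multiplicative ℤ, ∃ n : ℤ, y = (Multiplicative.ofAdd (1 : ℤ)) ^ n :=
          fun y => ⟨Multiplicative.toAdd y, by rw [← ofAdd_zsmul]; simp⟩
        exact key x
      have h1 : (Monoid.CoprodI.of (M := GK k) (i := none) x) = (yG : G k) ^ n := by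
        rw [hn, map_zpow]
        rfl
      have h2 : φ ((yG : G k) ^ n) ∈ T := by
        rw [map_zpow]
        exact T.zpow_mem (hy ho) n
      rw [← h1] at h2
      exact h2
    | some i =>
      have h3 : x = (1 : ℤˣ) ∨ x = (-1 : ℤˣ) := Int.units_eq_one_or x
      rcases h3 with h3 | h3
      · have h1 : (Monoid.CoprodI.of (M := GK k) (i := some i) x) = 1 := by
          rw [h3]
          exact map_one _
        have h2 : φ (1 : G k) ∈ T := by
          rw [map_one]
          exact T.one_mem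
        rw [← h1] at h2
        exact h2
      · have h1 : (Monoid.CoprodI.of (M := GK k) (i := some i) x) = xG i := by
          rw [xG_of i.isLt, h3]
        have h2 := hx i ho
        rw [← h1] at h2
        exact h2

private theorem f2_x {S : Option (Fin (k + 1)) → Prop} {i : ℕ} (hi : i < k + 1)
    (h : S (some ⟨i, hi⟩)) : (xG i : G k) ∈ (iS (GK k) S).range := by
  refine ⟨Monoid.CoprodI.of (M := fun o : {o // S o} => GK k o) (i := ⟨some ⟨i, hi⟩, h⟩)
    (show GK k (some ⟨i, hi⟩) from (-1 : ℤˣ)), ?_⟩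
  rw [xG_of hi]
  exact iS_of (M := GK k) S ⟨some ⟨i, hi⟩, h⟩ _

private theorem f2_y {S : Option (Fin (k + 1)) → Prop}
    (h : S none) : (yG : G k) ∈ (iS (GK k) S).range := by
  refine ⟨Monoid.CoprodI.of (M := fun o : {o // S o} => GK k o) (i := ⟨none, h⟩)
    (show GK k none from (Multiplicative.ofAdd (1 : ℤ))), ?_⟩
  exact iS_of (M := GK k) S ⟨none, h⟩ _

end FixTwo

/-- piece `B9b-4`: if `a_0` and `a_{k-1}` act in the same way on `s` then `a_0` fixes `s` (`k = m + 2`).
Proof. Let `S = {some (m+1), some (m+2)}`, `e = (gA (m+1))⁻¹ * gA 0`: `e s = s`. On `SG (m+2) S`, `gA 0` is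
the identity (it fixes the generators `x_{m+1}`, `x_{m+2}`, as `m + 1 ≥ 2`; `gA_x`, `gC`), and
`gA (m+1)`, its inverse too, preserves `SG (m+2) S`: the images of `x_{m+1}`, `x_{m+2}` under `gA (m+1)` are
`x_{m+1} x_{m+2} x_{m+1}`, `x_{m+1}`, and under the inverse `x_{m+2}`, `x_{m+2} x_{m+1} x_{m+2}` (apply
`gA (m+1)` to these to prove it). On `SG (m+2) Sᶜ` (generated by `y`, `x_i`, `i ≤ m`, and the trivial
elements `x_i`, `i > m + 2`), `gA (m+1)` is the identity and `gA 0` preserves it (`x_0 ↦ x_0 x_1 x_0`,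
`x_1 ↦ x_0`; here `1 ≤ m`). By `fix_sub (splitG (m+2) S)`, `s` is in the subgroup generated by elements of
`SG S` (fixed by `gA 0`) and elements `b` of `SG Sᶜ` with `e b = b`, i.e. `gA 0 b = gA (m+1) b = b`. So
`gA 0 s = s` (the fixed elements of `gA 0` are a subgroup: `Subgroup.closure_le`, or
`Subgroup.closure_induction`). -/
theorem fix_two (hm : 1 ≤ m) {s : G (m + 2)} (h : gA 0 s = gA (m + 1) s) : gA 0 s = s := by
  let S : Option (Fin (m + 2 + 1)) → Prop := fun o => ∃ i, o = some i ∧ m < (i : ℕ)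
  have hS : ∀ i : Fin (m + 2 + 1), S (some i) → m < (i : ℕ) := by
    rintro i ⟨j, hj, hj'⟩
    rw [Option.some.inj hj]
    exact hj'
  have hS' : ∀ i : Fin (m + 2 + 1), ¬ S (some i) → (i : ℕ) ≤ m := by
    intro i hi
    by_contra hc
    exact hi ⟨i, rfl, by omega⟩
  have hN : ¬ S none := by
    rintro ⟨i, hi, -⟩
    exact Option.some_ne_none i hi.symm
  -- `gA 0` fixes the first factor
  have ha : ∀ a, gA 0 (iS (GK (m + 2)) S a) = iS (GK (m + 2)) S a := by
    intro a
    refine f2_ind (T := MonoidHom.eqLocus (gA 0 : MulAut (G (m + 2))).toMonoidHom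
      (MonoidHom.id _)) (MonoidHom.id _) ?_ (fun h => absurd h hN) a
    intro i hi
    have h1 := hS i hi
    change gA 0 (xG (i : ℕ) : G (m + 2)) = xG (i : ℕ)
    rw [gA_x (by omega) (by omega), gC, if_neg (by omega), if_neg (by omega)]
  have hc : ∀ b, gA (m + 1) (iS (GK (m + 2)) (fun o => ¬ S o) b) =
      iS (GK (m + 2)) (fun o => ¬ S o) b := by
    intro b
    refine f2_ind (T := MonoidHom.eqLocus (gA (m + 1) : MulAut (G (m + 2))).toMonoidHom
      (MonoidHom.id _)) (MonoidHom.id _) ?_ (fun _ => gA_y) b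
    intro i hi
    have h1 := hS' i hi
    change gA (m + 1) (xG (i : ℕ) : G (m + 2)) = xG (i : ℕ)
    rw [gA_x (by omega) (by omega), gC, if_neg (by omega), if_neg (by omega)]
  have hb : ∀ a, (gA (m + 1))⁻¹ (iS (GK (m + 2)) S a) ∈ (iS (GK (m + 2)) S).range := by
    intro a
    refine f2_ind ((gA (m + 1) : MulAut (G (m + 2)))⁻¹).toMonoidHom ?_
      (fun h => absurd h hN) a
    intro i hi
    have h1 := hS i hi
    have hx1 : (xG (m + 1) : G (m + 2)) ∈ (iS (GK (m + 2)) S).range :=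
      f2_x (by omega) ⟨_, rfl, by simp⟩
    have hx2 : (xG (m + 2) : G (m + 2)) ∈ (iS (GK (m + 2)) S).range :=
      f2_x (by omega) ⟨_, rfl, by simp⟩
    have e1 : gA (m + 1) (xG (m + 2) : G (m + 2)) = xG (m + 1) := by
      rw [gA_x (by omega) (by omega), gC, if_neg (by omega), if_pos rfl]
    have e2 : gA (m + 1) (xG (m + 1) : G (m + 2)) = xG (m + 1) * xG (m + 2) * xG (m + 1) := by
      rw [gA_x (by omega) (by omega), gC, if_pos rfl]
    change (gA (m + 1))⁻¹ (xG (i : ℕ) : G (m + 2)) ∈ _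
    have h2 : (i : ℕ) = m + 1 ∨ (i : ℕ) = m + 2 := by omega
    rcases h2 with h2 | h2
    · rw [h2, ← e1, MulAut.inv_apply_self]
      exact hx2
    · have e3 : gA (m + 1) (xG (m + 2) * xG (m + 1) * xG (m + 2) : G (m + 2)) = xG (m + 2) := by
        rw [map_mul, map_mul, e1, e2]
        simp [mul_assoc]
      rw [h2]
      have e4 : (gA (m + 1))⁻¹ (xG (m + 2) : G (m + 2)) = xG (m + 2) * xG (m + 1) * xG (m + 2) := by
        conv_lhs => rw [← e3]
        rw [MulAut.inv_apply_self]
      rw [e4]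
      exact mul_mem (mul_mem hx2 hx1) hx2
  have hd : ∀ b, gA 0 (iS (GK (m + 2)) (fun o => ¬ S o) b) ∈
      (iS (GK (m + 2)) (fun o => ¬ S o)).range := by
    intro b
    refine f2_ind (gA 0 : MulAut (G (m + 2))).toMonoidHom ?_ ?_ b
    · intro i hi
      have h1 := hS' i hi
      have hx : ∀ i, i ≤ m → (xG i : G (m + 2)) ∈ (iS (GK (m + 2)) (fun o => ¬ S o)).range := by
        intro i hi
        refine f2_x (by omega) fun hc => ?_
        have := hS _ hc
        simp at this
        omega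
      change gA 0 (xG (i : ℕ) : G (m + 2)) ∈ _
      rw [gA_x (by omega) (by omega), gC]
      split_ifs with h2 h3
      · exact mul_mem (mul_mem (hx 0 (by omega)) (hx (0 + 1) (by omega))) (hx 0 (by omega))
      · exact hx 0 (by omega)
      · exact hx _ h1
    · intro _
      change gA 0 (yG : G (m + 2)) ∈ _
      rw [gA_y]
      exact f2_y hN
  have hee : ∀ g : G (m + 2), ((gA (m + 1))⁻¹ * gA 0 : MulAut (G (m + 2))) g =
      (gA (m + 1))⁻¹ (gA 0 g) := fun g => rfl
  have key := f2_gen (Pool.Agent.Helper38.BN.split (M := GK (m + 2)) S)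
    ((gA (m + 1))⁻¹ * gA 0 : MulAut (G (m + 2))) (x := s)
    (by
      intro a
      rw [hee, ha]
      exact hb a)
    (by
      intro b
      obtain ⟨b', hb'⟩ := hd b
      rw [hee, ← hb']
      refine ⟨b', ?_⟩
      conv_rhs => rw [← hc b']
      rw [MulAut.inv_apply_self])
    (by
      rw [hee, h, MulAut.inv_apply_self])
  have hle : Subgroup.closure ({g | g ∈ (iS (GK (m + 2)) S).range ∧
      ((gA (m + 1))⁻¹ * gA 0 : MulAut (G (m + 2))) g = g} ∪
      {g | g ∈ (iS (GK (m + 2)) (fun o => ¬ S o)).range ∧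
      ((gA (m + 1))⁻¹ * gA 0 : MulAut (G (m + 2))) g = g}) ≤
      MonoidHom.eqLocus (gA 0 : MulAut (G (m + 2))).toMonoidHom (MonoidHom.id _) := by
    rw [Subgroup.closure_le]
    rintro g (⟨⟨a, rfl⟩, -⟩ | ⟨⟨b, rfl⟩, hg⟩)
    · exact ha a
    · rw [hee] at hg
      have h1 := congrArg (gA (m + 1)) hg
      rw [MulAut.apply_inv_self, hc b] at h1
      exact h1
  exact hle key

/-- piece `B9b-5`: `x_k x_{k-1}` is not a power of `r`.
Proof. Let `χ = liftG (fun _ => 1) _ (ofAdd 1) : G (m+2) →* Multiplicative ℤ`: `χ (x_i) = 1`,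
`χ r = ofAdd 1` (`rG`, `xw` by induction). So `j = 0` and `x_{m+2} x_{m+1} = 1`; apply
`liftG (fun i => if i = m + 2 then -1 else 1) _ 1 : G (m+2) →* ℤˣ`: `-1 = 1`, a contradiction. -/
theorem u_not_r (m : ℕ) (j : ℤ) : (xG (m + 2) * xG (m + 1) : G (m + 2)) ≠ rG (m + 2) ^ j := by
  intro hz
  have h7 := congrArg (liftG (k := m + 2) (fun _ => (1 : Multiplicative ℤ))
    (fun _ _ => one_mul 1) (Multiplicative.ofAdd 1)) hz
  have h8 : ∀ i, i ≤ m + 2 → liftG (k := m + 2) (fun _ => (1 : Multiplicative ℤ))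
      (fun _ _ => one_mul 1) (Multiplicative.ofAdd 1) (xw i) = 1 := by
    intro i
    induction i with
    | zero => intro _; exact liftG_x _ _ _ (by omega)
    | succ i ih =>
      intro hi
      change liftG _ _ _ (xw i * xG (i + 1)) = 1
      rw [map_mul, ih (by omega), liftG_x _ _ _ hi, one_mul]
  rw [map_zpow, rG, map_mul, map_mul, liftG_y, h8 _ le_rfl, mul_one, liftG_x _ _ _ (by omega),
    liftG_x _ _ _ (by omega), one_mul, ← ofAdd_zsmul] at h7
  have h9 : j = 0 := by
    have := congrArg Multiplicative.toAdd h7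
    simpa using this.symm
  rw [h9, zpow_zero] at hz
  have h10 := congrArg (liftG (k := m + 2) (fun i => if i = m + 2 then (-1 : ℤˣ) else 1)
    (fun i _ => by split_ifs <;> simp) 1) hz
  rw [map_one, map_mul, liftG_x _ _ _ (by omega), liftG_x _ _ _ (by omega), if_pos rfl,
    if_neg (by omega), mul_one] at h10
  exact absurd h10 (by decide)

/-- piece `B9b-5`: `φ` fixes `ζ`. Proof. `zeA m = inc m (zeH (m+2))` (`inc_zeta`), `h`, `Tr_zeta`. -/
theorem phi_zeta {φ : MulAut (A m)} {l : ℤ} (h : ∀ x, φ (inc m x) = inc m (Tr (m + 2) l x)) :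
    φ (zeA m) = zeA m := by
  rw [← inc_zeta, h, Tr_zeta]

/-- piece `B9b-5`: `φ (a_j) = a_j ζ^l`. Proof. `inc_a`, `h`, `Tr_a`, `inc_zeta`. -/
theorem phi_a {φ : MulAut (A m)} {l : ℤ} (h : ∀ x, φ (inc m x) = inc m (Tr (m + 2) l x)) {j : ℕ}
    (hj : j < m + 2) : φ (aA j) = aA j * zeA m ^ l := by
  rw [← inc_a hj, h, Tr_a hj, map_mul, map_zpow, inc_zeta]

/-- piece `B9b-6`: the twist is trivial.
Proof. Let `s : N (m+2)` with `φ (nA m (uN m)) = nA m s` (`hN`), i.e. `φ uA = nA m s` (`nA_u`). `uA` commutes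
with `aA 0` (`u_comm_a`, `0 < m`) and `aA (m+1)` (`u_comm_last`), so `nA m s` commutes with
`x = aA 0 * ζ^l` and `x' = aA (m+1) * ζ^l` (`phi_a`). By `act_of_comm`: with `R = actA m (zeA m ^ l)` we get
`gA 0 (R s) = s` and `gA (m+1) (R s) = s` (`actA_a`). `R` commutes with `gA 0` and `gA (m+1)` (`zeA_comm_a`,
`map_mul`), so `R (gA 0 s) = s = R (gA (m+1) s)` and `gA 0 s = gA (m+1) s`; by `fix_two` `gA 0 s = s`, so
`R s = s`. By `comm_of_act` `nA m s` commutes with `ζ^l`, i.e. (`nA_r`, `nA_inj`) `s` commutes with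
`rG (m+2) ^ l`. If `l ≠ 0`, `s ∈ ⟨rG (m+2)⟩` by `cent_r` (with `n = l.natAbs`, replacing `rG ^ l` by its
inverse if `l < 0`), so `s = r^j`, `φ uA = ζ^j = φ (ζ^j)` (`phi_zeta`), `uA = ζ^j` and
`x_{m+2} x_{m+1} = r^j` (`nA_inj`, `nA_u`, `nA_r`): contradiction to `u_not_r`. -/
theorem l_zero (hm : 1 ≤ m) {φ : MulAut (A m)} {l : ℤ}
    (h : ∀ x, φ (inc m x) = inc m (Tr (m + 2) l x))
    (hN : ∀ n : N (m + 2), ∃ n' : N (m + 2), φ (nA m n) = nA m n') : l = 0 := by
  by_contra hl
  obtain ⟨s, hs⟩ := hN (uN m)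
  rw [nA_u] at hs
  have hcomm : ∀ x x' : A m, φ x = x' → uA * x = x * uA → actA m x' s.1 = s.1 := by
    intro x x' hx hc
    apply act_of_comm
    have h1 := congrArg φ hc
    rwa [map_mul, map_mul, hx, hs] at h1
  have h0 := hcomm _ _ (phi_a h (j := 0) (by omega)) (u_comm_a (by omega))
  have h1 := hcomm _ _ (phi_a h (j := m + 1) (by omega)) (u_comm_last m)
  rw [map_mul, actA_a (by omega), MulAut.mul_apply] at h0 h1
  -- `R` commutes with `a_j`
  have hR : ∀ j, j < m + 2 → ∀ g : G (m + 2),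
      gA j (actA m (zeA m ^ l) g) = actA m (zeA m ^ l) (gA j g) := by
    intro j hj g
    have hc : aA j * zeA m ^ l = zeA m ^ l * aA j :=
      (Commute.zpow_right (show Commute (aA j) (zeA m) from (zeA_comm_a hj).symm) l).eq
    have h2 := congrArg (actA m) hc
    rw [map_mul, map_mul, actA_a hj] at h2
    have h3 := congrArg (fun e : MulAut (G (m + 2)) => e g) h2
    simpa only [MulAut.mul_apply] using h3
  have h2 : actA m (zeA m ^ l) (gA 0 s.1) = actA m (zeA m ^ l) (gA (m + 1) s.1) := by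
    rw [← hR 0 (by omega), ← hR (m + 1) (by omega), h0, h1]
  have h3 : gA 0 s.1 = gA (m + 1) s.1 := (actA m (zeA m ^ l)).injective h2
  have h4 : gA 0 s.1 = s.1 := fix_two hm h3
  have h5 : actA m (zeA m ^ l) s.1 = s.1 := by
    have h6 := h0
    rw [hR 0 (by omega), h4] at h6
    exact h6
  have h6 := comm_of_act h5
  rw [← nA_r, ← map_zpow, ← map_mul, ← map_mul] at h6
  have h7 : s.1 * rG (m + 2) ^ l = rG (m + 2) ^ l * s.1 := congrArg Subtype.val (nA_inj h6)
  have h8 : s.1 * rG (m + 2) ^ l.natAbs = rG (m + 2) ^ l.natAbs * s.1 := by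
    have hc : Commute s.1 (rG (m + 2) ^ l) := h7
    rcases Int.natAbs_eq l with e | e
    · rw [e, zpow_natCast] at hc
      exact hc.eq
    · rw [e, zpow_neg, zpow_natCast] at hc
      exact (Commute.inv_right_iff.1 hc).eq
  obtain ⟨j, hj⟩ := cent_r (by omega) (Int.natAbs_pos.2 hl) h8
  have h9 : s = rN m ^ j := Subtype.ext hj.symm
  rw [h9, map_zpow, nA_r, ← phi_zeta h, ← map_zpow] at hs
  have h10 : (uA : A m) = zeA m ^ j := φ.injective hs
  rw [← nA_u, ← nA_r, ← map_zpow] at h10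
  have h11 : xG (m + 2) * xG (m + 1) = rG (m + 2) ^ j := congrArg Subtype.val (nA_inj h10)
  exact u_not_r m j h11

end Pool.Agent.Helper38.BN.E9
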