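import Pool.Agent.Helper60.BN9.Basic

/-!
# Project BN, block B9b, pieces BN-B9b-1 and BN-B9b-2: the transvections; what commutes with `u`
-/

namespace Pool.Agent.Helper38.BN.E9

variable {m k : ℕ}

private lemma zpow_comm_aux (k : ℕ) (n : ℤ) (h : HB k) : zeH k ^ n * h = h * zeH k ^ n :=
  ((show Commute h (zeH k) from zeH_comm h).zpow_right n).eq.symm

/-- piece `B9b-1`. Proof. Induction on `j`: `kap aH (j+1) = kap aH j * aH j` (by definition), `Tr_a`, and
`zeH k` commutes with everything (`zeH_comm`, `Commute.zpow_right`). -/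
theorem Tr_kap (l : ℤ) {j : ℕ} (hj : j ≤ k) :
    Tr k l (kap aH j) = kap aH j * zeH k ^ ((j : ℤ) * l) := by
  induction j with
  | zero => simp [kap]
  | succ j ih =>
    change Tr k l (kap aH j * aH j) = kap aH j * aH j * zeH k ^ (((j + 1 : ℕ) : ℤ) * l)
    rw [map_mul, ih (by omega), Tr_a (by omega), mul_assoc, ← mul_assoc (zeH k ^ ((j : ℤ) * l)),
      zpow_comm_aux, mul_assoc (aH j), ← zpow_add, ← mul_assoc]
    congr 2
    push_cast
    ring

/-- piece `B9b-1`. Proof. Induction on `j`: `krev aH (j+1) = aH j * krev aH j`. -/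
theorem Tr_krev (l : ℤ) {j : ℕ} (hj : j ≤ k) :
    Tr k l (krev aH j) = krev aH j * zeH k ^ ((j : ℤ) * l) := by
  induction j with
  | zero => simp [krev]
  | succ j ih =>
    change Tr k l (aH j * krev aH j) = aH j * krev aH j * zeH k ^ (((j + 1 : ℕ) : ℤ) * l)
    rw [map_mul, ih (by omega), Tr_a (by omega), mul_assoc, ← mul_assoc (zeH k ^ l),
      zpow_comm_aux, mul_assoc (krev aH j), ← zpow_add, ← mul_assoc]
    congr 2
    push_cast
    ring

/-- piece `B9b-1`. Proof. `zeH k = (dH * kap aH k) ^ (k + 1)` (unfold `zeH`, `zeta`, `rho`) and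
`Tr k l (dH * kap aH k) = dH * ζ^(-k l) * (kap aH k * ζ^(k l)) = dH * kap aH k` (`Tr_d`, `Tr_kap`). -/
theorem Tr_zeta (k : ℕ) (l : ℤ) : Tr k l (zeH k) = zeH k := by
  have h1 : Tr k l (dH * kap aH k) = dH * kap aH k := by
    rw [map_mul, Tr_d, Tr_kap l le_rfl, mul_assoc, ← mul_assoc (zeH k ^ (-(k : ℤ) * l)),
      zpow_comm_aux, mul_assoc (kap aH k), ← zpow_add, neg_mul, neg_add_cancel, zpow_zero, mul_one]
  have h2 : zeH k = (dH * kap aH k) ^ (k + 1) := rfl
  have h3 : Tr k l ((dH * kap aH k) ^ (k + 1)) = (dH * kap aH k) ^ (k + 1) := by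
    rw [map_pow, h1]
  exact (congrArg (Tr k l) h2).trans (h3.trans h2.symm)

/-- piece `B9b-1`. Proof. `Sp k dH = Dd k aH dH = dH * kap aH k * krev aH k` (`Sp_d`, `Dd`), and
`Tr k l` multiplies the three factors with `ζ^(-k l)`, `ζ^(k l)`, `ζ^(k l)`. -/
theorem Tr_Sp_d (k : ℕ) (l : ℤ) :
    Tr k l (Sp k dH) = Dd k aH dH * zeH k ^ ((k : ℤ) * l) := by
  have h1 : Tr k l (dH * kap aH k) = dH * kap aH k := by
    rw [map_mul, Tr_d, Tr_kap l le_rfl, mul_assoc, ← mul_assoc (zeH k ^ (-(k : ℤ) * l)),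
      zpow_comm_aux, mul_assoc (kap aH k), ← zpow_add, neg_mul, neg_add_cancel, zpow_zero, mul_one]
  rw [Sp_d]
  change Tr k l (dH * kap aH k * krev aH k) = dH * kap aH k * krev aH k * zeH k ^ ((k : ℤ) * l)
  rw [map_mul, h1, Tr_krev l le_rfl, ← mul_assoc]

/-- piece `B9b-2`. Proof. `zeA m = zeta (m+2) aA dA` and `zeta_comm_a (relA m).toRelB`. -/
theorem zeA_comm_a {j : ℕ} (hj : j < m + 2) : zeA m * aA j = aA j * zeA m :=
  zeta_comm_a (relA m).toRelB hj

/-- piece `B9b-2`. Proof. `zeta_comm_d`. -/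
theorem zeA_comm_d (m : ℕ) : zeA m * dA = dA * zeA m :=
  zeta_comm_d (relA m).toRelB

/-- piece `B9b-2`. Proof. `uA = bA * (aA (m+1))⁻¹`; `bA` commutes with `aA j` (`(relA m).bc`), and
`aA (m+1)` commutes with `aA j` (`(relA m).comm j (m+1)`, as `j + 2 ≤ m + 1`). Use `Commute`. -/
theorem u_comm_a {j : ℕ} (hj : j < m) : (uA : A m) * aA j = aA j * uA := by
  have h1 : Commute (bA : A m) (aA j) := (relA m).bc j hj
  have h2 : Commute (aA j : A m) (aA (m + 1)) := (relA m).comm j (m + 1) (by omega) (by omega)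
  have h3 : Commute (uA : A m) (aA j) := h1.mul_left h2.symm.inv_left
  exact h3

/-- piece `B9b-2`. Proof. `bA` commutes with `aA (m+1)`: `(relA m).ba`. -/
theorem u_comm_last (m : ℕ) : (uA : A m) * aA (m + 1) = aA (m + 1) * uA := by
  have h1 : Commute (bA : A m) (aA (m + 1)) := (relA m).ba
  have h3 : Commute (uA : A m) (aA (m + 1)) := h1.mul_left (Commute.refl _).inv_left
  exact h3

/-- piece `B9b-2`. Proof. `(relA m).bd`, `(relA m).dcomm (m+1)`. -/
theorem u_comm_d (m : ℕ) : (uA : A m) * dA = dA * uA := by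
  have h1 : Commute (bA : A m) dA := (relA m).bd
  have h2 : Commute (aA (m + 1) : A m) dA := (relA m).dcomm (m + 1) (by omega) (by omega)
  have h3 : Commute (uA : A m) dA := h1.mul_left h2.inv_left
  exact h3

/-- piece `B9b-2`: from the commutation in `A m` to the fixed elements in `N`.
Proof. `nA s` commutes with `x`: `x * nA m s * x⁻¹ = nA m s`; by `nA_equiv` this is
`nA m (actN m x s) = nA m s`, and `nA_inj`; `(actN m x s).1 = actA m x s.1` by definition. -/
theorem act_of_comm {x : A m} {s : N (m + 2)} (h : nA m s * x = x * nA m s) :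
    actA m x s.1 = s.1 := by
  have h1 : x * nA m s * x⁻¹ = nA m s := by rw [← h, mul_inv_cancel_right]
  rw [nA_equiv] at h1
  exact congrArg Subtype.val (nA_inj h1)

/-- piece `B9b-2`: the converse of `act_of_comm` -/
theorem comm_of_act {x : A m} {s : N (m + 2)} (h : actA m x s.1 = s.1) :
    nA m s * x = x * nA m s := by
  have h1 : actN m x s = s := Subtype.ext h
  have h2 := nA_equiv x s
  rw [h1] at h2
  have h3 := congrArg (fun y => y * x) h2
  simp only [inv_mul_cancel_right] at h3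
  exact h3.symm

end Pool.Agent.Helper38.BN.E9
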